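import Pool.Agent.R838.TW.Pl
import Pool.Agent.R838.LD.CntY
import Pool.Agent.Y671.GL.Shift

set_option autoImplicit false

/-!
# Completed L-functions and their products: the final theorems in terms of the completed function `Λ`

The first part is a variant of parts of the starting modules `Pool.Agent.Y671.GL.Cnt` and `Shift` (by helper671).
-/

namespace Pool.Agent.R838.TW

open Complex Filter Topology Set MeasureTheory
open scoped ComplexConjugate
open Pool.Agent.W169.HF (heat Slow)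
open Pool.Agent.Y671.LD (bad badH order_const_mul iter_diff)
open Pool.Agent.Y671.GL
open Pool.Agent.Y693.GL (GY)
open Pool.Agent.Y22.RX (S Bad)

section der

variable {κ : ℝ} {H X Z : ℂ → ℂ}

/-- **Counting, derivatives.** -/
theorem countDY (hκ : 1 / 2 ≤ κ) (hG : GY κ H X Z) (hA : AppX X) (hL : LowX X) :
    ∃ c C : ℝ, 0 < c ∧ 0 < C ∧
      (∀ (n : ℕ) (T : ℝ), (nu (iteratedDeriv n X) (ED X 0 n T) : ℝ) ≤
        C * Real.exp (-(c * n)) * nu (iteratedDeriv n X) (ZD X n T)) ∧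
      (∀ (n : ℕ) (T : ℝ), 2 ≤ T → (nu (iteratedDeriv n X) (ED X 0 n T) : ℝ) ≤
        C * Real.exp (-(c * n)) * T * Real.log T) := by
  have hfinZ := ZD_fin hκ hG.cg hA
  have hsub : ∀ n T, ED X 0 n T ⊆ ZD X n T := fun n T s h => h.1
  obtain ⟨c, C, hc, hC, hfin⟩ := Pool.Agent.Y693.GL.ddy Pool.Agent.Y412.GL.HSZ.hsz κ H X Z hκ hG hA hL
  obtain ⟨K, hK, N1, hlow⟩ := hL
  have hK1 : 1 ≤ K + 1 := by linarith
  obtain ⟨c2, T0, hc2, hT0, htot⟩ := Pool.Agent.Y423.GL.totd κ H X Z hκ hG.cg hA (K + 1) hK1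
  obtain ⟨N2, hN2⟩ : ∃ N2 : ℕ, ∀ n : ℕ, N2 ≤ n → T0 ≤ Real.exp (n / K) := by
    have h1 : Tendsto (fun n : ℕ => Real.exp ((n : ℝ) / K)) atTop atTop :=
      Real.tendsto_exp_atTop.comp (tendsto_natCast_atTop_atTop.atTop_div_const hK)
    obtain ⟨N', h⟩ := (h1.eventually_ge_atTop T0).exists_forall_of_atTop
    exact ⟨N', h⟩
  have hexc : ∀ (n : ℕ) (T : ℝ), 2 ≤ T → (nu (iteratedDeriv n X) (ED X 0 n T) : ℝ) ≤
      C * T * Real.log T * Real.exp (-(c * n)) := by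
    intro n T hT
    refine nu_le ((hfinZ n T).subset (hsub n T)) fun S hS => hfin n T hT S fun s hs => ?_
    obtain ⟨⟨h1, h2, h3⟩, h4⟩ := hS s hs
    exact ⟨⟨h1, h4⟩, h2, h3⟩
  refine ⟨c, C + C / c2 + Real.exp (c * (max N1 N2 : ℕ)), hc, by positivity, ?_, ?_⟩
  · intro n T
    have hE := Real.exp_pos (-(c * n))
    have hZ0 : (0 : ℝ) ≤ nu (iteratedDeriv n X) (ZD X n T) := Nat.cast_nonneg _
    rcases lt_or_ge n (max N1 N2) with hn | hn
    · have h4 : 1 ≤ Real.exp (c * (max N1 N2 : ℕ)) * Real.exp (-(c * n)) := by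
        rw [← Real.exp_add]
        apply Real.one_le_exp
        have : (n : ℝ) ≤ (max N1 N2 : ℕ) := by exact_mod_cast hn.le
        nlinarith
      calc (nu (iteratedDeriv n X) (ED X 0 n T) : ℝ) ≤ nu (iteratedDeriv n X) (ZD X n T) :=
            nu_mono (hfinZ n T) (hsub n T)
        _ = 1 * nu (iteratedDeriv n X) (ZD X n T) := by ring
        _ ≤ (Real.exp (c * (max N1 N2 : ℕ)) * Real.exp (-(c * n))) * nu (iteratedDeriv n X) (ZD X n T) := by
          gcongr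
        _ ≤ _ := by
          have : 0 ≤ (C + C / c2) * Real.exp (-(c * n)) * nu (iteratedDeriv n X) (ZD X n T) := by positivity
          linarith
    · rcases le_or_gt T (Real.exp (n / K)) with hT | hT
      · have h5 : ED X 0 n T = ∅ := by
          rw [Set.eq_empty_iff_forall_notMem]
          rintro s ⟨⟨h6, h7, h8⟩, h9⟩
          refine hlow n ((le_max_left _ _).trans hn) s ?_ ⟨h6, h9⟩
          rw [abs_of_pos h7]
          exact h8.trans hT
        rw [h5]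
        have h6 : (nu (iteratedDeriv n X) ∅ : ℝ) = 0 := by
          unfold nu
          simp
        rw [h6]
        positivity
      · have h5 := hN2 n ((le_max_right _ _).trans hn)
        have hT1 : T0 ≤ T := by linarith
        have hT3 : 2 ≤ T := by linarith
        have hl : (n : ℝ) / K < Real.log T := by
          rw [Real.lt_log_iff_exp_lt (by linarith)]
          exact hT
        have hl0 : 0 < Real.log T := Real.log_pos (by linarith)
        have h6 : (n : ℝ) ≤ (K + 1) * Real.log T := by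
          rw [div_lt_iff₀ hK] at hl
          nlinarith
        obtain ⟨S, hS, h7⟩ := htot n T hT1 h6
        have h7' : c2 * T * Real.log T ≤ nu (iteratedDeriv n X) (ZD X n T) :=
          h7.trans (le_nu (hfinZ n T) S hS)
        have h8 := hexc n T hT3
        have h9 : C * T * Real.log T * Real.exp (-(c * n)) ≤
            C / c2 * Real.exp (-(c * n)) * nu (iteratedDeriv n X) (ZD X n T) := by
          calc C * T * Real.log T * Real.exp (-(c * n)) =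
              C / c2 * Real.exp (-(c * n)) * (c2 * T * Real.log T) := by field_simp
            _ ≤ _ := by gcongr
        have h10 : 0 ≤ (C + Real.exp (c * (max N1 N2 : ℕ))) * Real.exp (-(c * n)) *
            nu (iteratedDeriv n X) (ZD X n T) := by
          positivity
        linarith
  · intro n T hT
    have hE := Real.exp_pos (-(c * n))
    have hl0 : 0 < Real.log T := Real.log_pos (by linarith)
    have h8 := hexc n T hT
    have h9 : 0 ≤ (C / c2 + Real.exp (c * (max N1 N2 : ℕ))) * Real.exp (-(c * n)) * T * Real.log T := by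
      positivity
    linarith

end der

section shift

variable {Λ : ℂ → ℂ} {u : ℂ} {a : ℝ}

/-- **Derivatives**, in terms of `Λ`. -/
theorem countDY_shift {κ : ℝ} {H Z : ℂ → ℂ} (hκ : 1 / 2 ≤ κ) (hu : u ≠ 0)
    (hG : GY κ H (fun z => u * Λ ((a : ℂ) + z)) Z) (hA : AppX (fun z => u * Λ ((a : ℂ) + z)))
    (hL : LowX (fun z => u * Λ ((a : ℂ) + z))) :
    (∀ (n : ℕ) (T : ℝ), (ZD Λ n T).Finite) ∧ ∃ c C : ℝ, 0 < c ∧ 0 < C ∧
      (∀ (n : ℕ) (T : ℝ), (nu (iteratedDeriv n Λ) (ED Λ a n T) : ℝ) ≤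
        C * Real.exp (-(c * n)) * nu (iteratedDeriv n Λ) (ZD Λ n T)) ∧
      (∀ (n : ℕ) (T : ℝ), 2 ≤ T → (nu (iteratedDeriv n Λ) (ED Λ a n T) : ℝ) ≤
        C * Real.exp (-(c * n)) * T * Real.log T) := by
  have hΛ : Differentiable ℂ Λ := by
    have h1 : Differentiable ℂ (fun s => u⁻¹ * (fun z => u * Λ ((a : ℂ) + z)) (s - a)) :=
      (hG.cg.cf.diff.comp (by fun_prop)).const_mul _
    have h2 : (fun s => u⁻¹ * (fun z => u * Λ ((a : ℂ) + z)) (s - a)) = Λ := by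
      funext s
      simp only [add_sub_cancel]
      rw [inv_mul_cancel_left₀ hu]
    rwa [h2] at h1
  have hfin := fun (n : ℕ) (T : ℝ) => ZD_fin hκ hG.cg hA n T
  obtain ⟨c, C, hc, hC, h1, h2⟩ := countDY hκ hG hA hL
  have e0 : ∀ n : ℕ, iteratedDeriv n (fun z => u * Λ ((a : ℂ) + z)) =
      fun z => u * iteratedDeriv n Λ ((a : ℂ) + z) := fun n => funext fun z => iter_shift' u a Λ n z
  have e1 : ∀ (n : ℕ) (T : ℝ), nu (iteratedDeriv n (fun z => u * Λ ((a : ℂ) + z)))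
      (ZD (fun z => u * Λ ((a : ℂ) + z)) n T) = nu (iteratedDeriv n Λ) (ZD Λ n T) := by
    intro n T
    rw [e0, nu_shift (iter_diff hΛ n) hu a (hfin n T), ZD_image hu]
  have e2 : ∀ (n : ℕ) (T : ℝ), nu (iteratedDeriv n (fun z => u * Λ ((a : ℂ) + z)))
      (ED (fun z => u * Λ ((a : ℂ) + z)) 0 n T) = nu (iteratedDeriv n Λ) (ED Λ a n T) := by
    intro n T
    rw [e0, nu_shift (iter_diff hΛ n) hu a ((hfin n T).subset fun s h => h.1), ED_image hu]
  refine ⟨fun n T => ?_, c, C, hc, hC, fun n T => ?_, fun n T hT => ?_⟩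
  · rw [← ZD_image (a := a) hu]
    exact (hfin n T).image _
  · rw [← e1, ← e2]
    exact h1 n T
  · rw [← e2]
    exact h2 n T hT

/-- zeros at distance at least `d` from the line `Re s = a` with imaginary part in `(0, T]` -/
def OffL (Λ : ℂ → ℂ) (a d T : ℝ) : Set ℂ := {s | Λ s = 0 ∧ d ≤ |s.re - a| ∧ 0 < s.im ∧ s.im ≤ T}

theorem off_image (hu : u ≠ 0) (d T : ℝ) :
    (fun z => (a : ℂ) + z) '' S (fun z => u * Λ ((a : ℂ) + z)) d T = OffL Λ a d T := by
  ext s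
  constructor
  · rintro ⟨z, ⟨h1, h2, h3, h4⟩, rfl⟩
    have hre : ((a : ℂ) + z).re = a + z.re := by simp
    have him : ((a : ℂ) + z).im = z.im := by simp
    refine ⟨(mul_eq_zero.1 h1).resolve_left hu, ?_, ?_, ?_⟩
    · show d ≤ |((a : ℂ) + z).re - a|
      rw [hre, add_sub_cancel_left]; exact h2
    · show 0 < ((a : ℂ) + z).im
      rw [him]; exact h3
    · show ((a : ℂ) + z).im ≤ T
      rw [him]; exact h4
  · rintro ⟨h1, h2, h3, h4⟩
    have e : (a : ℂ) + (s - a) = s := by ring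
    have hre : (s - (a : ℂ)).re = s.re - a := by simp
    have him : (s - (a : ℂ)).im = s.im := by simp
    refine ⟨s - a, ⟨?_, ?_, ?_, ?_⟩, e⟩
    · show u * Λ ((a : ℂ) + (s - a)) = 0
      rw [e, h1, mul_zero]
    · rw [hre]; exact h2
    · rw [him]; exact h3
    · rw [him]; exact h4

theorem S_fin {κ : ℝ} {X : ℂ → ℂ} (h : PL κ X) (d T : ℝ) : (S X d T).Finite := by
  have hK : IsCompact (Icc (-(1 / 2 : ℝ)) (1 / 2) ×ℂ Icc (0 : ℝ) T) := isCompact_Icc.reProdIm isCompact_Icc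
  refine (Pool.Agent.W605.SD.fin_zeros h.diff h.ne hK).subset ?_
  rintro s ⟨h1, h2, h3, h4⟩
  refine ⟨?_, h1⟩
  rw [mem_reProdIm]
  have := abs_le.1 (h.strip _ h1)
  exact ⟨⟨this.1, this.2⟩, h3.le, h4⟩

theorem PL.dens_S {κ : ℝ} {X : ℂ → ℂ} (h : PL κ X) {c : ℝ} (hc : c < 1) :
    ∃ C : ℝ, 0 < C ∧ ∀ d T : ℝ, 0 ≤ d → 2 ≤ T →
      (nu X (S X d T) : ℝ) ≤ C * T ^ (1 - c * d) * Real.log T := by
  obtain ⟨C, hC, h1⟩ := h.dens c hc
  refine ⟨C, hC, fun d T hd hT => nu_le (S_fin h d T) fun A hA => h1 d T hd hT A fun s hs => hA s hs⟩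

theorem PL.ncard_S {κ : ℝ} {X : ℂ → ℂ} (h : PL κ X) {c : ℝ} (hc : c < 1) :
    ∃ C : ℝ, 0 < C ∧ ∀ d T : ℝ, 0 ≤ d → 2 ≤ T → (S X d T).Finite ∧
      ((S X d T).ncard : ℝ) ≤ C * T ^ (1 - c * d) * Real.log T := by
  obtain ⟨C, hC, h1⟩ := h.dens_S hc
  refine ⟨C, hC, fun d T hd hT => ⟨S_fin h d T, le_trans ?_ (h1 d T hd hT)⟩⟩
  have h2 := ncard_le h.diff ⟨1, h.ne⟩ (S_fin h d T) (fun z hz => hz.1)
  unfold nu
  exact_mod_cast h2

theorem mono_shift (Λ : ℂ → ℂ) (hu : u ≠ 0) (h0 t : ℝ) :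
    StrictMonoOn (fun x : ℝ => ‖u * Λ ((a : ℂ) + (x + t * I))‖) (Ici h0) ↔
      StrictMonoOn (fun σ : ℝ => ‖Λ (σ + t * I)‖) (Ici (a + h0)) := by
  have hun : 0 < ‖u‖ := norm_pos_iff.2 hu
  constructor
  · intro h x hx y hy hxy
    have h1 := h (Set.mem_Ici.2 (show h0 ≤ x - a by have := Set.mem_Ici.1 hx; linarith))
      (Set.mem_Ici.2 (show h0 ≤ y - a by have := Set.mem_Ici.1 hy; linarith))
      (show x - a < y - a by linarith)
    have e : ∀ x : ℝ, (a : ℂ) + (((x - a : ℝ) : ℂ) + t * I) = x + t * I := by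
      intro x
      push_cast
      ring
    simp only [e, norm_mul] at h1
    exact lt_of_mul_lt_mul_left h1 hun.le
  · intro h x hx y hy hxy
    have h1 := h (Set.mem_Ici.2 (show a + h0 ≤ a + x by have := Set.mem_Ici.1 hx; linarith))
      (Set.mem_Ici.2 (show a + h0 ≤ a + y by have := Set.mem_Ici.1 hy; linarith))
      (show a + x < a + y by linarith)
    have e : ∀ x : ℝ, (((a + x : ℝ) : ℂ) + t * I) = (a : ℂ) + (x + t * I) := by
      intro x
      push_cast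
      ring
    simp only [e] at h1
    simp only [norm_mul]
    exact mul_lt_mul_of_pos_left h1 hun

/-- **Zeros off the line.** -/
theorem PL.off {κ : ℝ} (h : PL κ (fun z => u * Λ ((a : ℂ) + z))) (hu : u ≠ 0) (hΛ : Differentiable ℂ Λ)
    {c : ℝ} (hc : c < 1) : ∃ C : ℝ, 0 < C ∧ ∀ d T : ℝ, 0 ≤ d → 2 ≤ T →
      (OffL Λ a d T).Finite ∧ (nu Λ (OffL Λ a d T) : ℝ) ≤ C * T ^ (1 - c * d) * Real.log T := by
  obtain ⟨C, hC, h1⟩ := h.dens_S hc
  refine ⟨C, hC, fun d T hd hT => ?_⟩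
  have hfin := S_fin h d T
  have h2 := h1 d T hd hT
  rw [nu_shift hΛ hu a hfin, off_image hu] at h2
  refine ⟨?_, h2⟩
  rw [← off_image hu]
  exact hfin.image _

/-- **Growth away from the line.** -/
theorem PL.growth {κ : ℝ} (hκ : 1 / 2 ≤ κ) (h : PL κ (fun z => u * Λ ((a : ℂ) + z))) (hu : u ≠ 0)
    {c : ℝ} (hc : c < 1) : ∃ C : ℝ, 0 < C ∧ ∀ r T : ℝ, 0 ≤ r → 2 ≤ T →
      volume {t : ℝ | 0 ≤ t ∧ t ≤ T ∧
        ¬ StrictMonoOn (fun σ : ℝ => ‖Λ (σ + t * I)‖) (Ici (a + r / Real.log T))} ≤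
        ENNReal.ofReal (C * Real.exp (-(c * r)) * T) := by
  obtain ⟨C, hC, h1⟩ := bad_all h.sy (h.zero hκ) h.strip (fun c hc => h.ncard_S hc) hc
  refine ⟨C, hC, fun r T hr hT => le_trans (measure_mono ?_) (h1 r T hr hT)⟩
  rintro t ⟨h1, h2, h3⟩
  refine ⟨h1, h2, fun h4 => h3 ?_⟩
  exact (mono_shift Λ hu _ t).1 h4

/-- **The criterion.** -/
theorem PL.crit {κ : ℝ} (hκ : 1 / 2 ≤ κ) (h : PL κ (fun z => u * Λ ((a : ℂ) + z))) (hu : u ≠ 0) :
    (∀ s, Λ s = 0 → s.re = a) ↔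
      ∀ t : ℝ, StrictMonoOn (fun σ : ℝ => ‖Λ (σ + t * I)‖) (Ici a) := by
  have h1 := h.sy.iff (h.zero hκ)
  have h2 : (∀ s, Λ s = 0 → s.re = a) ↔ (∀ s, u * Λ ((a : ℂ) + s) = 0 → s.re = 0) := by
    constructor
    · intro h s hs
      have := h _ ((mul_eq_zero.1 hs).resolve_left hu)
      simpa using this
    · intro h s hs
      have e : (a : ℂ) + (s - a) = s := by ring
      have h3 := h (s - a) (by rw [e, hs, mul_zero])
      have h4 : (s - (a : ℂ)).re = s.re - a := by simp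
      linarith
  rw [h2, h1]
  refine forall_congr' fun t => ?_
  rw [mono_shift Λ hu, add_zero]

/-- **The heat flow.** -/
theorem PL.heatf {κ : ℝ} (hκ : 1 / 2 ≤ κ) (h : PL κ (fun z => u * Λ ((a : ℂ) + z))) (hu : u ≠ 0) :
    (∀ t T : ℝ, 0 ≤ t → (ZH Λ t T).Finite) ∧ ∃ c C : ℝ, 0 < c ∧ 0 < C ∧
      ∀ t T : ℝ, 0 < t → t ≤ 1 / 8 → 2 ≤ T →
      (nu (heat t Λ) (EH Λ a t T) : ℝ) ≤ C * Real.exp (-(c * t * Real.log T ^ 2)) * nu (heat t Λ) (ZH Λ t T) ∧
      (nu (heat t Λ) (EH Λ a t T) : ℝ) ≤ C * Real.exp (-(c * t * Real.log T ^ 2)) * T * Real.log T := by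
  obtain ⟨H, Z, hG⟩ := h.gy
  exact Pool.Agent.R838.LD.countHY_shift hκ hu hG h.app h.strip h.huge

/-- **Derivatives.** -/
theorem PL.derivs {κ : ℝ} (hκ : 1 / 2 ≤ κ) (h : PL κ (fun z => u * Λ ((a : ℂ) + z))) (hu : u ≠ 0) :
    (∀ (n : ℕ) (T : ℝ), (ZD Λ n T).Finite) ∧ ∃ c C : ℝ, 0 < c ∧ 0 < C ∧
      (∀ (n : ℕ) (T : ℝ), (nu (iteratedDeriv n Λ) (ED Λ a n T) : ℝ) ≤
        C * Real.exp (-(c * n)) * nu (iteratedDeriv n Λ) (ZD Λ n T)) ∧
      (∀ (n : ℕ) (T : ℝ), 2 ≤ T → (nu (iteratedDeriv n Λ) (ED Λ a n T) : ℝ) ≤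
        C * Real.exp (-(c * n)) * T * Real.log T) := by
  obtain ⟨H, Z, hG⟩ := h.gy
  exact countDY_shift hκ hu hG h.app h.low

end shift

end Pool.Agent.R838.TW
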