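import Pool.Agent.Y693.GL.Twf
import Pool.Agent.Y671.GL.Cg
import Pool.Agent.Y24.GL.H3
import Pool.Agent.W388.TW.Good
import Pool.Agent.W108.TW.Mellin
import Pool.Agent.W440.TW.Twist
import Pool.Agent.W820.TW.FE

set_option autoImplicit false

/-!
# Completed L-functions from the functional equation data `FE2`
-/

namespace Pool.Agent.R838.TW

open Filter Topology Complex
open Pool.Agent.Y671.GL (Frm IsL LData Hg)
open W388 (FE2 GG)
open scoped ComplexConjugate

section glue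

variable {k : ℤ} {N Q : ℝ} {F : ℂ → ℂ}

theorem GG_diff (hk : 1 ≤ k) (hN : 0 < N) (hQ : 0 < Q) {s : ℂ} (hs : s.im ≠ 0 ∨ 0 < s.re) :
    DifferentiableAt ℂ (GG k N Q) s := by
  have hpi := Real.pi_pos
  have hk1 : (1 : ℝ) ≤ k := by exact_mod_cast hk
  have hsq : 0 < Real.sqrt N := Real.sqrt_pos.2 hN
  have hc : (0 : ℝ) < Real.sqrt N * Q / (2 * Real.pi) := by positivity
  have hcc : ((Real.sqrt N * Q / (2 * Real.pi) : ℝ) : ℂ) ≠ 0 := by exact_mod_cast hc.ne'
  have hre : (s + ((k : ℂ) - 1) / 2).re = s.re + ((k : ℝ) - 1) / 2 := by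
    have e : ((k : ℂ) - 1) / 2 = ((((k : ℝ) - 1) / 2 : ℝ) : ℂ) := by push_cast; ring
    rw [e, Complex.add_re, Complex.ofReal_re]
  have him : (s + ((k : ℂ) - 1) / 2).im = s.im := by
    have e : ((k : ℂ) - 1) / 2 = ((((k : ℝ) - 1) / 2 : ℝ) : ℂ) := by push_cast; ring
    rw [e, Complex.add_im, Complex.ofReal_im, add_zero]
  unfold GG
  refine DifferentiableAt.mul ?_ ?_
  · exact DifferentiableAt.const_cpow differentiableAt_id (Or.inl hcc)
  · refine DifferentiableAt.comp s (f := fun z : ℂ => z + ((k : ℂ) - 1) / 2)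
      (Complex.differentiableAt_Gamma _ ?_) (by fun_prop)
    intro m hm
    rcases hs with hs | hs
    · have h1 := congrArg Complex.im hm
      rw [him] at h1
      simp at h1
      exact hs h1
    · have h1 := congrArg Complex.re hm
      rw [hre] at h1
      simp at h1
      have hm0 : (0 : ℝ) ≤ m := Nat.cast_nonneg m
      linarith

/-- The completed function is entire. -/
theorem exists_entire (hk : 1 ≤ k) (hN : 0 < N) (hQ : 0 < Q) (hF : FE2 k N Q F) :
    ∃ (Λ : ℂ → ℂ) (w : ℂ), ‖w‖ = 1 ∧ Differentiable ℂ Λ ∧ (∀ s, Λ s = w * conj (Λ (1 - conj s))) ∧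
      (∀ s : ℂ, (s.im ≠ 0 ∨ 0 < s.re) → Λ s = GG k N Q s * F s) ∧
      (∀ a b : ℝ, ∃ M : ℝ, ∀ s : ℂ, a ≤ s.re → s.re ≤ b → ‖Λ s‖ ≤ M) := by
  obtain ⟨w, hw, hfe⟩ := hF.fe
  have hww : w * conj w = 1 := by
    rw [Complex.mul_conj, Complex.normSq_eq_norm_sq, hw]
    simp
  obtain ⟨P, hP⟩ : ∃ P : ℂ → ℂ, P = fun s => GG k N Q s * F s := ⟨_, rfl⟩
  have hPv : ∀ s, P s = GG k N Q s * F s := fun s => by rw [hP]
  have hPd : ∀ s : ℂ, (s.im ≠ 0 ∨ 0 < s.re) → DifferentiableAt ℂ P s := by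
    intro s hs
    rw [hP]
    exact (GG_diff hk hN hQ hs).mul (hF.diff s)
  obtain ⟨R, hR⟩ : ∃ R : ℂ → ℂ, R = fun s => w * conj (P (1 - conj s)) := ⟨_, rfl⟩
  have hRv : ∀ s, R s = w * conj (P (1 - conj s)) := fun s => by rw [hR]
  have hRd : ∀ s : ℂ, (s.im ≠ 0 ∨ s.re < 1) → DifferentiableAt ℂ R s := by
    intro s hs
    have h1 : DifferentiableAt ℂ (fun z : ℂ => P (1 - z)) (conj s) := by
      refine DifferentiableAt.comp (conj s) (f := fun z : ℂ => 1 - z) (hPd _ ?_) (by fun_prop)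
      rcases hs with hs | hs
      · left
        simpa using hs
      · right
        simp
        linarith
    have h2 := h1.hasDerivAt.conj_conj
    rw [Complex.conj_conj] at h2
    have h3 : R = fun s => w * (conj ∘ (fun z : ℂ => P (1 - z)) ∘ conj) s := by
      rw [hR]
      rfl
    rw [h3]
    exact h2.differentiableAt.const_mul w
  have hPR0 : ∀ s : ℂ, s.im ≠ 0 → P s = R s := by
    intro s hs
    rw [hRv, hPv, hPv, hfe s hs]
  have hPR : ∀ s : ℂ, 0 < s.re → s.re < 1 → P s = R s := by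
    intro s h1 h2
    by_cases hs : s.im = 0
    · have hc : ContinuousAt (fun y : ℝ => P (s + y * I) - R (s + y * I)) 0 := by
        have hl : ContinuousAt (fun y : ℝ => s + (y : ℂ) * I) 0 := by fun_prop
        have e0 : s + ((0 : ℝ) : ℂ) * I = s := by simp
        have h3 : ContinuousAt P (s + ((0 : ℝ) : ℂ) * I) := by
          rw [e0]; exact (hPd s (Or.inr h1)).continuousAt
        have h4 : ContinuousAt R (s + ((0 : ℝ) : ℂ) * I) := by
          rw [e0]; exact (hRd s (Or.inr h2)).continuousAt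
        exact (ContinuousAt.comp (f := fun y : ℝ => s + (y : ℂ) * I) h3 hl).sub
          (ContinuousAt.comp (f := fun y : ℝ => s + (y : ℂ) * I) h4 hl)
      have h3 : Tendsto (fun y : ℝ => P (s + y * I) - R (s + y * I)) (𝓝[≠] 0)
          (𝓝 (P (s + ((0 : ℝ) : ℂ) * I) - R (s + ((0 : ℝ) : ℂ) * I))) := hc.tendsto.mono_left nhdsWithin_le_nhds
      have h4 : Tendsto (fun y : ℝ => P (s + y * I) - R (s + y * I)) (𝓝[≠] 0) (𝓝 0) := by
        refine tendsto_const_nhds.congr' ?_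
        filter_upwards [self_mem_nhdsWithin] with y hy
        have h5 : (s + (y : ℂ) * I).im ≠ 0 := by
          simp [hs]
          exact hy
        rw [hPR0 _ h5, sub_self]
      have h5 := tendsto_nhds_unique h3 h4
      have e0 : s + ((0 : ℝ) : ℂ) * I = s := by simp
      rw [e0] at h5
      exact sub_eq_zero.1 h5
    · exact hPR0 s hs
  classical
  obtain ⟨Λ, hΛ⟩ : ∃ Λ : ℂ → ℂ, Λ = fun s => if 0 < s.re then P s else R s := ⟨_, rfl⟩
  have hΛP : ∀ s : ℂ, (s.im ≠ 0 ∨ 0 < s.re) → Λ s = P s := by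
    intro s hs
    rw [hΛ]
    simp only
    split_ifs with h
    · rfl
    · rcases hs with hs | hs
      · exact (hPR0 s hs).symm
      · exact absurd hs h
  have hΛR : ∀ s : ℂ, s.re < 1 → Λ s = R s := by
    intro s hs
    rw [hΛ]
    simp only
    split_ifs with h
    · exact hPR s h hs
    · rfl
  have hΛd : Differentiable ℂ Λ := by
    intro s
    rcases lt_or_ge 0 s.re with h | h
    · refine (hPd s (Or.inr h)).congr_of_eventuallyEq ?_
      have : ∀ᶠ z : ℂ in 𝓝 s, 0 < z.re := (Complex.continuous_re.tendsto s).eventually (lt_mem_nhds h)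
      filter_upwards [this] with z hz
      exact hΛP z (Or.inr hz)
    · have h1 : s.re < 1 := by linarith
      refine (hRd s (Or.inr h1)).congr_of_eventuallyEq ?_
      have : ∀ᶠ z : ℂ in 𝓝 s, z.re < 1 := (Complex.continuous_re.tendsto s).eventually (gt_mem_nhds h1)
      filter_upwards [this] with z hz
      exact hΛR z hz
  refine ⟨Λ, w, hw, hΛd, ?_, fun s hs => (hΛP s hs).trans (hPv s), ?_⟩
  · intro s
    rcases lt_or_ge s.re 1 with h | h
    · rw [hΛR s h, hRv, hΛP (1 - conj s) (Or.inr (by simp; linarith))]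
    · have e : 1 - conj (1 - conj s) = s := by
        rw [map_sub, map_one, Complex.conj_conj]
        ring
      rw [hΛP s (Or.inr (by linarith)), hΛR (1 - conj s) (by simp; linarith), hRv, e, map_mul,
        Complex.conj_conj, ← mul_assoc, hww, one_mul]
  · intro a b
    obtain ⟨C1, hC1⟩ := hF.vert a b
    have hK : IsCompact (Set.Icc a b ×ℂ Set.Icc (-1 : ℝ) 1) := isCompact_Icc.reProdIm isCompact_Icc
    obtain ⟨C2, hC2⟩ := hK.exists_bound_of_continuousOn (f := Λ) hΛd.continuous.continuousOn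
    refine ⟨max C1 C2, fun s hs1 hs2 => ?_⟩
    rcases le_or_gt 1 |s.im| with h1 | h1
    · refine le_trans ?_ (le_max_left _ _)
      have him : s.im ≠ 0 := by
        intro h0; rw [h0, abs_zero] at h1; linarith
      rw [hΛP s (Or.inl him), hPv]
      exact hC1 s hs1 hs2 h1
    · refine le_trans (hC2 s ?_) (le_max_right _ _)
      rw [Complex.mem_reProdIm]
      have := abs_lt.1 h1
      exact ⟨⟨hs1, hs2⟩, ⟨this.1.le, this.2.le⟩⟩

theorem GG_conj (k : ℤ) (hN : 0 < N) (hQ : 0 < Q) (s : ℂ) : GG k N Q (conj s) = conj (GG k N Q s) := by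
  have hpi := Real.pi_pos
  have hsq : 0 < Real.sqrt N := Real.sqrt_pos.2 hN
  have hc : (0 : ℝ) < Real.sqrt N * Q / (2 * Real.pi) := by positivity
  unfold GG
  rw [map_mul, ← Complex.Gamma_conj]
  have e1 : conj (s + ((k : ℂ) - 1) / 2) = conj s + ((k : ℂ) - 1) / 2 := by
    have e : ((k : ℂ) - 1) / 2 = ((((k : ℝ) - 1) / 2 : ℝ) : ℂ) := by push_cast; ring
    rw [e, map_add, Complex.conj_ofReal]
  rw [e1]
  congr 1
  have harg : ((Real.sqrt N * Q / (2 * Real.pi) : ℝ) : ℂ).arg ≠ Real.pi := by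
    rw [Complex.arg_ofReal_of_nonneg hc.le]
    exact Real.pi_ne_zero.symm
  have h2 := Complex.cpow_conj ((Real.sqrt N * Q / (2 * Real.pi) : ℝ) : ℂ) s harg
  rw [Complex.conj_ofReal] at h2
  exact h2

/-- the dual function -/
theorem FE2_conj (hN : 0 < N) (hQ : 0 < Q) (hF : FE2 k N Q F) : FE2 k N Q (fun s => conj (F (conj s))) where
  diff := by
    intro s
    have h2 := (hF.diff (conj s)).hasDerivAt.conj_conj
    rw [Complex.conj_conj] at h2
    exact h2.differentiableAt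
  fe := by
    obtain ⟨w, hw, hfe⟩ := hF.fe
    refine ⟨conj w, by rw [Complex.norm_conj]; exact hw, fun s hs => ?_⟩
    have h1 := congrArg conj (hfe (conj s) (by simpa using hs))
    rw [map_mul, map_mul, GG_conj k hN hQ, Complex.conj_conj, Complex.conj_conj, Complex.conj_conj] at h1
    rw [h1, map_mul, ← GG_conj k hN hQ, Complex.conj_conj, map_sub, map_one, Complex.conj_conj]
  vert := by
    intro a b
    obtain ⟨C, hC⟩ := hF.vert a b
    refine ⟨C, fun s h1 h2 h3 => ?_⟩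
    have h4 := hC (conj s) (by simpa using h1) (by simpa using h2) (by simpa using h3)
    rw [GG_conj k hN hQ, norm_mul, Complex.norm_conj] at h4
    rw [norm_mul, Complex.norm_conj]
    exact h4

end glue

section form

variable {k N : ℕ} {ps lam : ℕ → ℂ} {M Q : ℝ} {F : ℂ → ℂ}

/-- bound in the half plane of convergence -/
theorem rgt_le (hf : Frm k N ps lam) (hL : IsL lam F) : ∃ B : ℝ, 1 ≤ B ∧ ∀ s : ℂ, 3 / 2 ≤ s.re → ‖F s‖ ≤ B := by
  obtain ⟨c, K, -, hK, h⟩ := Pool.Agent.Y671.GL.rgt_of hf hL (1 / 2) (by norm_num)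
  exact ⟨max 1 K, le_max_left _ _, fun s hs => ((h s (by linarith)).2.1).trans (le_max_right _ _)⟩

/-- growth in the upper half plane -/
theorem gro_of (hk : 1 ≤ k) (hM : 1 ≤ M) (hQ : 1 ≤ Q) (hF : FE2 k M Q F) {B : ℝ} (hB1 : 1 ≤ B)
    (hB : ∀ s : ℂ, 3 / 2 ≤ s.re → ‖F s‖ ≤ B) :
    ∃ A : ℝ, 0 ≤ A ∧ ∀ s : ℂ, 1 / 16 ≤ s.re → 1 ≤ s.im → ‖F s‖ ≤ A * s.im ^ A := by
  have hk' : (1 : ℤ) ≤ (k : ℤ) := by exact_mod_cast hk
  have hQ0 : (0 : ℝ) < Q := by linarith
  obtain ⟨A, hA⟩ : ∃ A : ℝ, A = 2 + 2 * (B * M) * ((((k : ℤ) : ℝ) - 1) / 2 + 6) ^ 2 := ⟨_, rfl⟩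
  have hA0 : 0 ≤ A := by
    rw [hA]
    positivity
  refine ⟨max A (A * Q ^ A), le_trans hA0 (le_max_left _ _), fun s h1 h3 => ?_⟩
  have h5 := Pool.Agent.W820.TW.F_growth (k := k) (N := M) (Q := Q) (B := B) hk' hM hQ hB1 hF hB
    (A := A) (le_of_eq hA.symm) s h1 h3
  have hs0 : 0 < s.im := by linarith
  rw [Real.mul_rpow hQ0.le hs0.le, ← mul_assoc] at h5
  refine h5.trans ?_
  have h6 : s.im ^ A ≤ s.im ^ (max A (A * Q ^ A)) :=
    Real.rpow_le_rpow_of_exponent_le h3 (le_max_left _ _)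
  have h7 : A * Q ^ A ≤ max A (A * Q ^ A) := le_max_right _ _
  have h8 : 0 ≤ s.im ^ A := by positivity
  have h9 : 0 ≤ max A (A * Q ^ A) := le_trans hA0 (le_max_left _ _)
  exact mul_le_mul h7 h6 h8 h9

/-- the properties of the L-function -/
theorem lfn_of (hk : 1 ≤ k) (hM : 1 ≤ M) (hQ : 1 ≤ Q) (hFE : FE2 k M Q F) (hf : Frm k N ps lam) (hL : IsL lam F) :
    Pool.Agent.Y24.GL.LFn F where
  diff := hL.diff
  low := by
    obtain ⟨c, K, hc, -, h⟩ := Pool.Agent.Y671.GL.rgt_of hf hL 1 one_pos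
    exact ⟨c, hc, fun z hz => (h z (by linarith)).1⟩
  ne := fun z hz h0 => by
    obtain ⟨c, K, hc, -, h⟩ := Pool.Agent.Y671.GL.rgt_of hf hL (z.re - 1) (by linarith)
    have := (h z (by linarith)).1
    rw [h0, norm_zero] at this
    linarith
  gro := fun A => by
    obtain ⟨B, hB1, hB⟩ := rgt_le hf hL
    obtain ⟨a, ha0, ha⟩ := gro_of hk hM hQ hFE hB1 hB
    obtain ⟨a', ha0', ha'⟩ := gro_of hk hM hQ (FE2_conj (by linarith) (by linarith) hFE) hB1 (fun s hs => by
      rw [Complex.norm_conj]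
      exact hB _ (by simpa using hs))
    have hK : IsCompact (Set.Icc (1 / 4) A ×ℂ Set.Icc (-1) 1) := isCompact_Icc.reProdIm isCompact_Icc
    obtain ⟨M1, hM1⟩ := hK.exists_bound_of_continuousOn hL.diff.continuous.continuousOn
    obtain ⟨b, hb⟩ : ∃ b : ℕ, a ≤ b ∧ a' ≤ b := by
      obtain ⟨b, hb⟩ := exists_nat_ge (max a a')
      exact ⟨b, (le_max_left _ _).trans hb, (le_max_right _ _).trans hb⟩
    have hup : ∀ (y a : ℝ), 1 ≤ y → 0 ≤ a → a ≤ b → a * y ^ a ≤ a * (1 + y) ^ b := by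
      intro y a hy ha0 hab
      apply mul_le_mul_of_nonneg_left _ ha0
      calc y ^ a ≤ y ^ (b : ℝ) := Real.rpow_le_rpow_of_exponent_le hy hab
        _ = y ^ b := Real.rpow_natCast _ _
        _ ≤ _ := by gcongr; linarith
    refine ⟨a + a' + |M1| + 1, b, by positivity, fun z h1 h2 => ?_⟩
    rcases le_or_gt 1 z.im with h3 | h3
    · have h4 : |z.im| = z.im := abs_of_nonneg (by linarith)
      rw [h4]
      refine (ha z (by linarith) h3).trans ((hup _ _ h3 ha0 hb.1).trans ?_)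
      gcongr
      have := abs_nonneg M1
      linarith
    · rcases le_or_gt z.im (-1) with h4 | h4
      · have h5 : |z.im| = -z.im := abs_of_nonpos (by linarith)
        have h6 := ha' (conj z) (by simp; linarith) (by simp; linarith)
        simp only [Complex.conj_conj, Complex.norm_conj, Complex.conj_im] at h6
        rw [h5]
        refine h6.trans ((hup _ _ (by linarith) ha0' hb.2).trans ?_)
        have h7 : 0 ≤ 1 + -z.im := by linarith
        refine mul_le_mul_of_nonneg_right ?_ (pow_nonneg h7 b)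
        have := abs_nonneg M1
        linarith
      · have h5 := hM1 z ⟨⟨h1, h2⟩, ⟨h4.le, h3.le⟩⟩
        have h6 : (1 : ℝ) ≤ (1 + |z.im|) ^ b := one_le_pow₀ (by linarith [abs_nonneg z.im])
        have h7 : ‖F z‖ ≤ a + a' + |M1| + 1 := by
          have := le_abs_self M1
          linarith
        calc ‖F z‖ ≤ (a + a' + |M1| + 1) * 1 := by rw [mul_one]; exact h7
          _ ≤ _ := by gcongr

/-- the unit -/
theorem exists_unit {w : ℂ} (hw : ‖w‖ = 1) : ∃ c0 : ℂ, ‖c0‖ = 1 ∧ c0 * w = conj c0 := by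
  obtain ⟨c0, hc0⟩ : ∃ c0 : ℂ, c0 ^ 2 = conj w := IsAlgClosed.exists_pow_nat_eq _ (by norm_num)
  have hc0n : ‖c0‖ = 1 := by
    have h1 := congrArg norm hc0
    rw [norm_pow, Complex.norm_conj, hw] at h1
    nlinarith [norm_nonneg c0]
  have hc00 : c0 ≠ 0 := by
    intro h; rw [h, norm_zero] at hc0n; exact zero_ne_one hc0n
  refine ⟨c0, hc0n, ?_⟩
  apply mul_left_cancel₀ hc00
  have h1 : conj w * w = 1 := by
    rw [mul_comm, Complex.mul_conj, Complex.normSq_eq_norm_sq, hw]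
    simp
  have h2 : c0 * conj c0 = 1 := by
    rw [Complex.mul_conj, Complex.normSq_eq_norm_sq, hc0n]
    simp
  rw [h2, ← mul_assoc, ← sq, hc0, h1]

/-- **The completed L-function.** -/
theorem ldata_of (hk : 1 ≤ k) (hM : 1 ≤ M) (hQ : 1 ≤ Q) (hFE : FE2 k M Q F) (hf : Frm k N ps lam) (hL : IsL lam F) :
    ∃ (u v : ℂ) (X : ℂ → ℂ), LData k (Real.sqrt M * Q / (2 * Real.pi)) u X F ∧ v ≠ 0 ∧
      ∀ z : ℂ, 1 / 2 < z.re → X z = v * (GG k M Q (1 / 2 + z) * F (1 / 2 + z)) := by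
  have hpi := Real.pi_pos
  have hk' : (1 : ℤ) ≤ (k : ℤ) := by exact_mod_cast hk
  have hM0 : 0 < M := by linarith
  have hQ0 : 0 < Q := by linarith
  obtain ⟨Λ, w, hw, hd, hfe, heq, hvert⟩ := exists_entire hk' hM0 hQ0 hFE
  obtain ⟨c0, hc0, hc0w⟩ := exists_unit hw
  have hc00 : c0 ≠ 0 := by
    intro h; rw [h, norm_zero] at hc0; exact zero_ne_one hc0
  obtain ⟨c, hc⟩ : ∃ c : ℝ, c = Real.sqrt M * Q / (2 * Real.pi) := ⟨_, rfl⟩
  have hsq : 0 < Real.sqrt M := Real.sqrt_pos.2 hM0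
  have hcp : 0 < c := by rw [hc]; positivity
  have hcc : (c : ℂ) ≠ 0 := by exact_mod_cast hcp.ne'
  have hhalf : (c : ℂ) ^ (1 / 2 : ℂ) ≠ 0 := by
    rw [Ne, Complex.cpow_eq_zero_iff]
    exact fun h => hcc h.1
  rw [← hc]
  have hGG : ∀ z : ℂ, GG k M Q (1 / 2 + z) = (c : ℂ) ^ (1 / 2 : ℂ) * Hg c ((k : ℝ) / 2) z := by
    intro z
    unfold GG Hg
    rw [← hc, Complex.cpow_add _ _ hcc, mul_assoc]
    congr 2
    congr 1
    push_cast
    ring
  obtain ⟨B, hB1, hB⟩ := rgt_le hf hL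
  obtain ⟨a, -, ha⟩ := gro_of hk hM hQ hFE hB1 hB
  refine ⟨c0 * (c : ℂ) ^ (1 / 2 : ℂ), c0, fun z => c0 * Λ (1 / 2 + z), ⟨hcp, mul_ne_zero hc00 hhalf, ?_, ?_, ?_, ?_,
    ⟨a, ha⟩⟩, hc00, ?_⟩
  · exact (hd.comp (by fun_prop)).const_mul _
  · intro z
    have e1 : (1 - conj (1 / 2 + -(conj z)) : ℂ) = 1 / 2 + z := by
      rw [map_add, map_neg, Complex.conj_conj, map_div₀, map_one]
      have : conj (2 : ℂ) = 2 := Complex.conj_ofNat 2
      rw [this]
      ring
    show c0 * Λ (1 / 2 + -(conj z)) = conj (c0 * Λ (1 / 2 + z))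
    rw [hfe (1 / 2 + -(conj z)), e1, ← mul_assoc, hc0w, ← map_mul]
  · intro z hz
    have h1 : Λ (1 / 2 + z) = GG k M Q (1 / 2 + z) * F (1 / 2 + z) := by
      apply heq
      rcases hz with hz | hz
      · left
        simp
        exact hz.ne'
      · right
        simp
        linarith
    show c0 * Λ (1 / 2 + z) = _
    rw [h1, hGG]
    ring
  · intro a b
    obtain ⟨C1, hC1⟩ := hvert (a + 1 / 2) (b + 1 / 2)
    refine ⟨‖c0‖ * C1, fun z hz1 hz2 => ?_⟩
    rw [norm_mul]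
    exact mul_le_mul_of_nonneg_left (hC1 _ (by simp; linarith) (by simp; linarith)) (norm_nonneg _)
  · intro z hz
    show c0 * Λ (1 / 2 + z) = _
    rw [heq (1 / 2 + z) (Or.inr (by simp; linarith))]

end form

end Pool.Agent.R838.TW
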