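import Pool.Agent.R838.TW.Pl
import Pool.Agent.Y693.GL.Ldt

set_option autoImplicit false

/-!
# Newforms of trivial character and their twists by primitive Dirichlet characters
-/

namespace Pool.Agent.R838.TW

open UpperHalfPlane hiding I
open MatrixGroups CongruenceSubgroup Filter Topology Complex
open Pool.Agent.Y671.GL
open Pool.Agent.Y771.NF (lm psN frm_newf)
open Pool.Agent.Y693.GL (lx psx frm_tw l2)
open Pool.Agent.W169.HF (IsForm coef)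
open Pool.Agent.W355.UN (facE prodE Pk coprime_cond isNewf_of)
open scoped ComplexConjugate

section form

variable {N : ℕ} [NeZero N] {k : ℕ} {f : CuspForm (Gamma0 N : Subgroup (GL (Fin 2) ℝ)) (k : ℤ)} {ε : ℝ}
variable {q : ℕ} [NeZero q] {χ : DirichletCharacter ℂ q}

theorem exists_L (hk : 1 ≤ k) (hf : W388.IsNewf N k f ε) (hχ : χ.IsPrimitive) (hco : Nat.Coprime q N) :
    ∃ F : ℂ → ℂ, W388.FE2 k N q F ∧ IsL (lx f χ) F := by
  have hsum : ∀ (q : ℕ) [NeZero q] (χ : DirichletCharacter ℂ q) (s : ℂ), 1 < s.re →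
      Summable (fun n : ℕ => ‖χ (n : ZMod q) * (W388.lamf f n : ℂ) * (n : ℂ) ^ (-s)‖) := by
    intro q _ χ s hs
    have h0 : Frm k N (psN N) (lm f) := frm_newf hk hf
    obtain ⟨-, -, -, h4⟩ := Pool.Agent.Y771.GL.mf k N (psN N) (lm f) h0
    refine (h4 s.re hs).1.of_nonneg_of_le (fun n => norm_nonneg _) fun n => ?_
    rcases Nat.eq_zero_or_pos n with rfl | hn
    · have h5 : (W388.lamf f 0 : ℂ) = 0 := h0.zero
      rw [h5]
      simp
      positivity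
    · rw [norm_mul, norm_mul, Complex.norm_natCast_cpow_of_pos hn, neg_re]
      have h6 := χ.norm_le_one (n : ZMod q)
      have h7 : ‖lm f n‖ = ‖(W388.lamf f n : ℂ)‖ := rfl
      rw [h7]
      have h8 : (0 : ℝ) ≤ (n : ℝ) ^ (-s.re) := by positivity
      have h9 := norm_nonneg ((W388.lamf f n : ℂ))
      calc ‖χ (n : ZMod q)‖ * ‖(W388.lamf f n : ℂ)‖ * (n : ℝ) ^ (-s.re) ≤
          1 * ‖(W388.lamf f n : ℂ)‖ * (n : ℝ) ^ (-s.re) := by gcongr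
        _ = _ := by ring
  have hk' : (1 : ℤ) ≤ (k : ℤ) := by exact_mod_cast hk
  obtain ⟨F, hF, hs⟩ := W388.exists_twist Pool.Agent.W440.TW.t_twist Pool.Agent.W108.TW.t_mellin
    hk' hf hsum q χ hχ hco
  exact ⟨F, hF, hF.diff, hs⟩

/-- **Twists of newforms.** -/
theorem pl_tw (hk : 1 ≤ k) (hf : W388.IsNewf N k f ε) (hχ : χ.IsPrimitive) (hco : Nat.Coprime q N) :
    ∃ (X F : ℂ → ℂ) (v : ℂ), PL 1 X ∧ v ≠ 0 ∧ IsL (lx f χ) F ∧
      ∀ s : ℂ, 1 < s.re → X (s - 1 / 2) = v * (W388.GG k N q s * F s) := by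
  obtain ⟨F, hFE, hL⟩ := exists_L hk hf hχ hco
  have hfm := frm_tw hk hf hχ hco
  have hN1 : (1 : ℝ) ≤ N := by exact_mod_cast Nat.one_le_iff_ne_zero.2 (NeZero.ne N)
  have hq1 : (1 : ℝ) ≤ q := by exact_mod_cast Nat.one_le_iff_ne_zero.2 (NeZero.ne q)
  obtain ⟨u, v, X, hD, hv, hX⟩ := ldata_of hk hN1 hq1 hFE hfm hL
  have hlfn := lfn_of hk hN1 hq1 hFE hfm hL
  haveI : NeZero (N * q ^ 2) := ⟨Nat.mul_ne_zero (NeZero.ne N) (pow_ne_zero _ (NeZero.ne q))⟩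
  have hsq : Real.sqrt ((N * q ^ 2 : ℕ) : ℝ) = Real.sqrt N * q := by
    push_cast
    rw [Real.sqrt_mul (by linarith), Real.sqrt_sq (by linarith)]
  rw [← hsq] at hD
  refine ⟨X, F, v, pl_of hk hfm hL hD hlfn, hv, hL, fun s hs => ?_⟩
  have h1 := hX (s - 1 / 2) (by simp; linarith)
  rw [add_sub_cancel] at h1
  exact h1

end form

section ec

variable {N : ℕ} [NeZero N] {f : CuspForm (Gamma0 N : Subgroup (GL (Fin 2) ℝ)) 2} {w : ℝ}
variable {q : ℕ} [NeZero q] {χ : DirichletCharacter ℂ q}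

/-- **Twists of elliptic curves.** -/
theorem pl_fac (hf : IsForm N f w) (hχ : χ.IsPrimitive) (hco : Nat.Coprime q N) :
    ∃ (X : ℂ → ℂ) (v : ℂ), PL 1 X ∧ v ≠ 0 ∧ ∀ s : ℂ, 3 / 2 < s.re → X (s - 1) = v * facE f χ s := by
  have hpi := Real.pi_pos
  obtain ⟨X, F, v, hP, hv, hL, hX⟩ := pl_tw (k := 2) (f := f) (by norm_num) (isNewf_of hf) hχ hco
  have hN0 : (0 : ℝ) < N := by exact_mod_cast Nat.pos_of_ne_zero (NeZero.ne N)
  have hq0 : (0 : ℝ) < q := by exact_mod_cast Nat.pos_of_ne_zero (NeZero.ne q)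
  have hsq : 0 < Real.sqrt N := Real.sqrt_pos.2 hN0
  obtain ⟨c, hc⟩ : ∃ c : ℝ, c = Real.sqrt N * q / (2 * Real.pi) := ⟨_, rfl⟩
  have hcp : 0 < c := by rw [hc]; positivity
  have hcc : (c : ℂ) ≠ 0 := by exact_mod_cast hcp.ne'
  have h00 : W388.lamf f 0 = 0 := by
    have h0 : Frm 2 N (psN N) (lm (k := 2) f) := frm_newf (by norm_num) (isNewf_of hf)
    have h5 : (W388.lamf f 0 : ℂ) = 0 := h0.zero
    exact_mod_cast h5
  have hL' : IsL (l2 f χ) F := hL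
  refine ⟨X, v * (c : ℂ) ^ (-(1 / 2) : ℂ), hP, ?_, fun s hs => ?_⟩
  · refine mul_ne_zero hv ?_
    rw [Ne, Complex.cpow_eq_zero_iff]
    exact fun h => hcc h.1
  · have h1 := hX (s - 1 / 2) (by simp; linarith)
    have e1 : s - 1 / 2 - 1 / 2 = s - 1 := by ring
    rw [e1] at h1
    rw [h1, Pool.Agent.Y693.GL.facE_eq hf hL' hs h00, ← hc]
    unfold W388.GG
    rw [← hc]
    have e2 : (s - 1 / 2 : ℂ) = -(1 / 2) + s := by ring
    have e3 : (s - 1 / 2 : ℂ) + ((((2 : ℕ) : ℤ) : ℂ) - 1) / 2 = s := by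
      push_cast
      ring
    rw [e3]
    rw [show ((c : ℂ) ^ (s - 1 / 2 : ℂ)) = (c : ℂ) ^ (-(1 / 2) : ℂ) * (c : ℂ) ^ s by
      rw [e2, Complex.cpow_add _ _ hcc]]
    ring

end ec

/-! ### the completed function in its own normalisation -/

theorem exists_Lam {κ : ℝ} {X : ℂ → ℂ} (h : PL κ X) (a : ℝ) {G : ℂ → ℂ} {v : ℂ} (hv : v ≠ 0) {σ : ℝ}
    (hG : ∀ s : ℂ, σ < s.re → X (s - a) = v * G s) :
    ∃ Λ : ℂ → ℂ, Differentiable ℂ Λ ∧ (∀ s : ℂ, σ < s.re → Λ s = G s) ∧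
      (∃ W : ℂ, ‖W‖ = 1 ∧ ∀ s : ℂ, Λ (2 * a - s) = W * conj (Λ (conj s))) ∧
      PL κ (fun z => v * Λ ((a : ℂ) + z)) := by
  obtain ⟨Λ, hΛ⟩ : ∃ Λ : ℂ → ℂ, Λ = fun s => v⁻¹ * X (s - a) := ⟨_, rfl⟩
  have hΛv : ∀ s, Λ s = v⁻¹ * X (s - a) := fun s => by rw [hΛ]
  have hvX : ∀ s, v * Λ s = X (s - a) := fun s => by rw [hΛv, mul_inv_cancel_left₀ hv]
  have hvn : ‖v‖ ≠ 0 := norm_ne_zero_iff.2 hv
  refine ⟨Λ, ?_, ?_, ?_, ?_⟩
  · rw [hΛ]
    exact (h.diff.comp (by fun_prop)).const_mul _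
  · intro s hs
    rw [hΛv, hG s hs, inv_mul_cancel_left₀ hv]
  · refine ⟨v⁻¹ * conj v, ?_, fun s => ?_⟩
    · rw [norm_mul, norm_inv, Complex.norm_conj, inv_mul_cancel₀ hvn]
    · have e1 : (2 * a - s - a : ℂ) = -(conj (conj s - a)) := by
        rw [map_sub, Complex.conj_conj, Complex.conj_ofReal]
        ring
      rw [hΛv, e1, h.sy.symm, ← hvX, map_mul, mul_assoc]
  · have e : (fun z => v * Λ ((a : ℂ) + z)) = X := by
      funext z
      rw [hvX, add_sub_cancel_left]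
    rw [e]
    exact h

/-- uniqueness -/
theorem uniq {G Λ Λ' : ℂ → ℂ} (hd : Differentiable ℂ Λ) (hd' : Differentiable ℂ Λ')
    (h : ∃ σ : ℝ, ∀ s : ℂ, σ < s.re → Λ s = G s) (h' : ∃ σ : ℝ, ∀ s : ℂ, σ < s.re → Λ' s = G s) : Λ' = Λ := by
  obtain ⟨σ, h⟩ := h
  obtain ⟨σ', h'⟩ := h'
  exact Pk.uniq hd hd' ⟨σ + 1, fun s hs => h s (by linarith)⟩ ⟨σ' + 1, fun s hs => h' s (by linarith)⟩

section ab

variable {M : ℕ} [NeZero M] (G : Subgroup (DirichletCharacter ℂ M)) [Fintype G]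
variable {N : ℕ} [NeZero N] {f : CuspForm (Gamma0 N : Subgroup (GL (Fin 2) ℝ)) 2} {w : ℝ}

/-- **Elliptic curves over abelian number fields.** -/
theorem pl_ab (hf : IsForm N f w) (hco : Nat.Coprime M N) :
    ∃ (X : ℂ → ℂ) (v : ℂ), PL (Fintype.card G : ℝ) X ∧ v ≠ 0 ∧
      ∀ s : ℂ, 3 / 2 < s.re → X (s - 1) = v * prodE G f s := by
  classical
  have hone : ∀ χ : G, ∃ (X : ℂ → ℂ) (v : ℂ), PL 1 X ∧ v ≠ 0 ∧ ∀ s : ℂ, 3 / 2 < s.re →
      X (s - 1) = v * facE f (χ : DirichletCharacter ℂ M).primitiveCharacter s := by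
    intro χ
    haveI : NeZero (χ : DirichletCharacter ℂ M).conductor := ⟨DirichletCharacter.conductor_ne_zero _⟩
    exact pl_fac hf (DirichletCharacter.primitiveCharacter_isPrimitive _) (coprime_cond hco _)
  choose X v h1 h2 h3 using hone
  refine ⟨fun w => ∏ χ : G, X χ w, ∏ χ : G, v χ, ?_, Finset.prod_ne_zero_iff.2 fun χ _ => h2 χ, fun s hs => ?_⟩
  · have := pl_prod (Finset.univ : Finset G) ⟨1, Finset.mem_univ _⟩ X fun χ _ => h1 χ
    rw [Finset.card_univ] at this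
    exact this
  · unfold prodE
    rw [← Finset.prod_mul_distrib]
    exact Finset.prod_congr rfl fun χ _ => h3 χ s hs

end ab

end Pool.Agent.R838.TW
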