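import Pool.Agent.Y22.RX2
import Pool.Agent.Y275.GL.Had1

set_option autoImplicit false

/-!
# Growth of entire functions with a functional equation away from the line

Variant of the starting modules `Pool.Agent.Y22.RX1` and `RX2` (by helper22) for functions which need not be real: only
the symmetry `X (-(conj z)) = conj (X z)` is used.
-/

namespace Pool.Agent.R838.TW

open MeasureTheory Set Filter Complex Topology Polynomial
open Pool.Agent.Y22.RX (S Bad)
open Pool.Agent.Y22.LM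
open scoped ComplexConjugate

noncomputable section

/-- symmetric entire functions of order at most `3/2` -/
structure Sy (Φ : ℂ → ℂ) : Prop where
  diff : Differentiable ℂ Φ
  symm : ∀ z : ℂ, Φ (-(conj z)) = conj (Φ z)
  slow : ∃ K : ℝ, 0 < K ∧ ∀ z : ℂ, ‖Φ z‖ ≤ Real.exp (K * (1 + ‖z‖) ^ (3 / 2 : ℝ))
  ne : ∃ z, Φ z ≠ 0

/-- approximation of the square by symmetric polynomials -/
theorem Sy.app {Φ : ℂ → ℂ} (h : Sy Φ) :
    ∃ R : ℕ → ℂ[X], (∀ N (z : ℂ), (R N).eval z = 0 → Φ z = 0 ∨ z.re = 0) ∧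
      (∀ z : ℂ, Tendsto (fun N : ℕ => (R N).eval z) atTop (𝓝 (Φ z * Φ z))) ∧
      ∀ (N : ℕ) (x t : ℝ), ‖(R N).eval (-x + t * I : ℂ)‖ = ‖(R N).eval (x + t * I : ℂ)‖ := by
  have hΦ := h.diff
  have hsym := h.symm
  have hne := h.ne
  obtain ⟨K, hK, hb⟩ := h.slow
  obtain ⟨t0, ht0⟩ : ∃ t0 : ℝ, Φ (I * t0) ≠ 0 := by
    have han : AnalyticOnNhd ℂ Φ Set.univ := fun z _ => hΦ.analyticAt z
    rcases (han 0 (Set.mem_univ _)).eventually_eq_zero_or_eventually_ne_zero with h | h
    · exfalso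
      obtain ⟨z, hz'⟩ := hne
      exact hz' (han.eqOn_zero_of_preconnected_of_eventuallyEq_zero isPreconnected_univ
        (Set.mem_univ 0) h (Set.mem_univ z))
    · have h1 : Tendsto (fun t : ℝ => I * (t : ℂ)) (𝓝[≠] 0) (𝓝[≠] 0) := by
        rw [tendsto_nhdsWithin_iff]
        constructor
        · have h2 : Tendsto (fun t : ℝ => I * (t : ℂ)) (𝓝 0) (𝓝 (I * ((0 : ℝ) : ℂ))) :=
            (Continuous.tendsto (by fun_prop) 0)
          rw [Complex.ofReal_zero, mul_zero] at h2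
          exact h2.mono_left nhdsWithin_le_nhds
        · filter_upwards [self_mem_nhdsWithin] with t ht h3
          rcases mul_eq_zero.1 h3 with h4 | h4
          · exact Complex.I_ne_zero h4
          · exact ht (by exact_mod_cast h4)
      exact (h1.eventually h).exists
  obtain ⟨f, hf⟩ : ∃ f : ℂ → ℂ, f = fun x => Φ (I * x + I * t0) := ⟨_, rfl⟩
  have hfd : Differentiable ℂ f := by
    rw [hf]
    exact hΦ.comp (by fun_prop)
  have hf0 : f 0 ≠ 0 := by
    rw [hf]
    simpa using ht0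
  have hfs : ∀ x, f ((starRingEnd ℂ) x) = (starRingEnd ℂ) (f x) := by
    intro x
    rw [hf]
    simp only
    rw [← hsym]
    congr 1
    simp only [map_add, map_mul, Complex.conj_I, Complex.conj_ofReal]
    ring
  have hK' : 0 ≤ K * (1 + |t0|) ^ (3 / 2 : ℝ) := by positivity
  have hfb : ∀ w, ‖f w‖ ≤ Real.exp (K * (1 + |t0|) ^ (3 / 2 : ℝ) * (1 + ‖w‖) ^ (3 / 2 : ℝ)) := by
    intro w
    rw [hf]
    refine (hb _).trans (Real.exp_le_exp.2 ?_)
    rw [mul_assoc, ← Real.mul_rpow (by positivity) (by positivity)]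
    refine mul_le_mul_of_nonneg_left (Real.rpow_le_rpow (by positivity) ?_ (by norm_num)) hK.le
    have h1 : ‖I * w + I * (t0 : ℂ)‖ ≤ ‖w‖ + |t0| := by
      refine (norm_add_le _ _).trans (le_of_eq ?_)
      rw [norm_mul, norm_mul, Complex.norm_I, Complex.norm_real, Real.norm_eq_abs, one_mul, one_mul]
    have h2 : 0 ≤ |t0| * ‖w‖ := by positivity
    nlinarith
  obtain ⟨Q, hQ, hlim⟩ := Pool.Agent.Y275.GL.had_real hfd hf0 hfs hK' hfb
  have hpt : ∀ w : ℂ, Tendsto (fun N => (Q N).eval w) atTop (𝓝 (f w)) := fun w =>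
    (tendstoLocallyUniformlyOn_univ.mpr hlim).tendsto_at (Set.mem_univ w)
  have hfΦ : ∀ z : ℂ, f (-I * z - t0) = Φ z := by
    intro z
    have h1 : I * (-I * z - (t0 : ℂ)) + I * (t0 : ℂ) = z := by
      have := Complex.I_mul_I
      linear_combination (-z) * this
    rw [hf]
    simp only [h1]
  have hcj : ∀ (p : ℂ[X]) (w : ℂ), (p.map (starRingEnd ℂ)).eval w = conj (p.eval (conj w)) := by
    intro p w
    have h1 := Polynomial.eval₂_at_apply (p := p) (starRingEnd ℂ) (conj w)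
    rw [Complex.conj_conj] at h1
    rw [Polynomial.eval_map, h1]
  have hev : ∀ (N : ℕ) (z : ℂ), (((Q N) * (Q N).map (starRingEnd ℂ)).comp (Polynomial.C (-I) * Polynomial.X -
      Polynomial.C (t0 : ℂ))).eval z = (Q N).eval (-I * z - t0) * conj ((Q N).eval (conj (-I * z - t0))) := by
    intro N z
    rw [eval_comp, eval_mul, hcj, eval_sub, eval_mul, eval_C, eval_X, eval_C]
  refine ⟨fun N => ((Q N) * (Q N).map (starRingEnd ℂ)).comp (Polynomial.C (-I) * Polynomial.X -
    Polynomial.C (t0 : ℂ)), ?_, ?_, ?_⟩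
  · intro N z hr
    rw [hev] at hr
    have him : ∀ z : ℂ, (-I * z - (t0 : ℂ)).im = -z.re := fun z => by simp
    rcases mul_eq_zero.1 hr with h | h
    · rcases hQ N _ h with h | h
      · left
        rw [hfΦ] at h
        exact h
      · right
        rw [him] at h
        linarith
    · rw [map_eq_zero] at h
      rcases hQ N _ h with h | h
      · left
        rw [hfs, map_eq_zero, hfΦ] at h
        exact h
      · right
        rw [Complex.conj_im, him] at h
        linarith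
  · intro z
    simp only [hev]
    have h1 := hpt (-I * z - t0)
    have h2 := (Complex.continuous_conj.tendsto _).comp (hpt (conj (-I * z - t0)))
    rw [hfs, Complex.conj_conj] at h2
    rw [hfΦ] at h1 h2
    exact h1.mul h2
  · intro N x t
    rw [hev, hev]
    have e : -I * (-x + t * I : ℂ) - t0 = conj (-I * (x + t * I : ℂ) - t0) := by
      simp only [map_sub, map_mul, map_neg, map_add, Complex.conj_I, Complex.conj_ofReal]
      ring
    rw [e, Complex.conj_conj, norm_mul, norm_mul, Complex.norm_conj, Complex.norm_conj, mul_comm]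

/-- growth on a ray -/
theorem Sy.le {Φ : ℂ → ℂ} (h : Sy Φ) {t h0 h1 h2 : ℝ} (h0n : 0 ≤ h0) (h01 : h0 ≤ h1) (h12 : h1 ≤ h2)
    (hZ : ∀ b : ℂ, Φ b = 0 → h0 < |b.re| → |b.re| ≤ |t - b.im|) :
    ‖Φ (h1 + t * I : ℂ)‖ ≤ ‖Φ (h2 + t * I : ℂ)‖ := by
  obtain ⟨R, hR1, hR2, hR3⟩ := h.app
  have hN : ∀ N, ‖(R N).eval (h1 + t * I : ℂ)‖ ≤ ‖(R N).eval (h2 + t * I : ℂ)‖ := by
    intro N
    have h3 := poly_ineq (p := R N) (t := t) (fun x => hR3 N x t) h0n h01 h12 ∅ (fun _ => 0)
      (fun b hb h4 h5 => by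
        exfalso
        rcases hR1 N b (Polynomial.isRoot_of_mem_roots hb) with h6 | h6
        · have := hZ b h6 h5
          linarith
        · rw [h6, abs_zero] at h5
          linarith) (fun b hb => by simp at hb) (fun b hb => by simp at hb)
    simpa using h3
  have h3 : ‖Φ (h1 + t * I : ℂ) * Φ (h1 + t * I : ℂ)‖ ≤ ‖Φ (h2 + t * I : ℂ) * Φ (h2 + t * I : ℂ)‖ :=
    le_of_tendsto_of_tendsto' (hR2 _).norm (hR2 _).norm hN
  rw [norm_mul, norm_mul] at h3
  exact abs_le_of_sq_le_sq' (by nlinarith) (norm_nonneg _) |>.2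

/-- strict growth on a ray -/
theorem Sy.strict {Φ : ℂ → ℂ} (h : Sy Φ) (hz : ∃ z, Φ z = 0) {t h0 : ℝ} (h0n : 0 ≤ h0)
    (hZ : ∀ b : ℂ, Φ b = 0 → h0 < |b.re| → |b.re| ≤ |t - b.im|) :
    StrictMonoOn (fun x : ℝ => ‖Φ (x + t * I : ℂ)‖) (Set.Ici h0) := by
  have hg : ∀ h1 h2 : ℝ, h0 ≤ h1 → h1 ≤ h2 → ‖Φ (h1 + t * I : ℂ)‖ ≤ ‖Φ (h2 + t * I : ℂ)‖ :=
    fun h1 h2 h01 h12 => h.le h0n h01 h12 hZ
  have hne : ∀ x : ℝ, h0 < x → Φ (x + t * I : ℂ) ≠ 0 := by
    intro x hx h1
    have h2 := hZ _ h1 (by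
      simp only [add_re, ofReal_re, mul_re, I_re, mul_zero, ofReal_im, I_im, mul_one, sub_self, add_zero]
      exact lt_of_lt_of_le hx (le_abs_self _))
    simp only [add_re, ofReal_re, mul_re, I_re, mul_zero, ofReal_im, I_im, mul_one, sub_self, add_zero,
      add_im, mul_im, zero_add, abs_zero] at h2
    have h3 := abs_pos.mpr (ne_of_gt (lt_of_le_of_lt h0n hx))
    linarith
  intro h1 hh1 h2 hh2 h12
  rw [Set.mem_Ici] at hh1 hh2
  show ‖Φ (h1 + t * I : ℂ)‖ < ‖Φ (h2 + t * I : ℂ)‖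
  by_contra hcon
  push Not at hcon
  have hconst : ∀ x ∈ Set.Ioo h1 h2, ‖Φ (x + t * I : ℂ)‖ = ‖Φ (h1 + t * I : ℂ)‖ := by
    intro x hh
    have a1 := hg h1 x hh1 hh.1.le
    have a2 := hg x h2 (hh1.trans hh.1.le) hh.2.le
    linarith
  obtain ⟨G, hG⟩ : ∃ G : ℂ → ℂ, G = fun z => Φ (z + t * I) * Φ (-z + t * I) - ((‖Φ (h1 + t * I : ℂ)‖ : ℂ)) ^ 2 :=
    ⟨_, rfl⟩
  have hGd : Differentiable ℂ G := by
    rw [hG]
    have e1 : Differentiable ℂ (fun z : ℂ => Φ (z + t * I)) := h.diff.comp (by fun_prop)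
    have e2 : Differentiable ℂ (fun z : ℂ => Φ (-z + t * I)) := h.diff.comp (by fun_prop)
    exact (e1.mul e2).sub_const _
  have hG0 : ∀ x ∈ Set.Ioo h1 h2, G x = 0 := by
    intro x hh
    rw [hG]
    simp only
    have e1 : (-x + t * I : ℂ) = -((starRingEnd ℂ) (x + t * I : ℂ)) := by
      rw [map_add, map_mul, Complex.conj_ofReal, Complex.conj_ofReal, Complex.conj_I]; ring
    rw [e1, h.symm, Complex.mul_conj, Complex.normSq_eq_norm_sq, hconst x hh]
    push_cast
    ring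
  have hGz : G = 0 := by
    have hm : (((h1 + h2) / 2 : ℝ) : ℂ) ∈ (Set.univ : Set ℂ) := Set.mem_univ _
    have hfreq : ∃ᶠ z in 𝓝[≠] (((h1 + h2) / 2 : ℝ) : ℂ), G z = 0 := by
      have hmap : Tendsto (fun x : ℝ => (x : ℂ)) (𝓝[≠] ((h1 + h2) / 2)) (𝓝[≠] (((h1 + h2) / 2 : ℝ) : ℂ)) := by
        refine tendsto_nhdsWithin_iff.mpr ⟨(Complex.continuous_ofReal.tendsto _).mono_left nhdsWithin_le_nhds, ?_⟩
        filter_upwards [self_mem_nhdsWithin] with x hx
        rw [Set.mem_compl_singleton_iff] at hx ⊢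
        exact fun h0 => hx (by exact_mod_cast h0)
      refine hmap.frequently (Eventually.frequently ?_)
      have : ∀ᶠ x : ℝ in 𝓝 ((h1 + h2) / 2), x ∈ Set.Ioo h1 h2 := isOpen_Ioo.mem_nhds ⟨by linarith, by linarith⟩
      filter_upwards [this.filter_mono nhdsWithin_le_nhds] with x hx
      exact hG0 x hx
    have h3 := AnalyticOnNhd.eqOn_zero_of_preconnected_of_frequently_eq_zero (f := G) (U := Set.univ)
      (fun z _ => hGd.analyticAt z) isPreconnected_univ hm hfreq
    funext z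
    exact h3 (Set.mem_univ z)
  obtain ⟨z0, hz0⟩ := hz
  have h4 := congrFun hGz (z0 - t * I)
  rw [hG] at h4
  simp only [Pi.zero_apply, sub_add_cancel, hz0, zero_mul, zero_sub, neg_eq_zero] at h4
  have h5 : ‖Φ (h1 + t * I : ℂ)‖ = 0 := by
    have := pow_eq_zero_iff (two_ne_zero) |>.mp h4
    exact_mod_cast this
  have hmid := hconst ((h1 + h2) / 2) ⟨by linarith, by linarith⟩
  have h6 := hne ((h1 + h2) / 2) (by linarith)
  rw [h5] at hmid
  exact h6 (norm_eq_zero.mp hmid)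

/-- All zeros are on the line if and only if the modulus is strictly increasing to the right of the line at all
heights. -/
theorem Sy.iff {Φ : ℂ → ℂ} (h : Sy Φ) (hz : ∃ z, Φ z = 0) :
    (∀ s, Φ s = 0 → s.re = 0) ↔ ∀ t : ℝ, StrictMonoOn (fun x : ℝ => ‖Φ (x + t * I : ℂ)‖) (Ici 0) := by
  constructor
  · intro h1 t
    refine h.strict hz le_rfl fun b hb hb0 => ?_
    rw [h1 b hb] at hb0
    simp at hb0
  · intro h1
    have hpos : ∀ s : ℂ, 0 < s.re → Φ s ≠ 0 := by
      intro s hs h0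
      have h2 := h1 s.im (Set.mem_Ici.2 le_rfl) (Set.mem_Ici.2 hs.le) hs
      simp only at h2
      rw [Complex.re_add_im s, h0, norm_zero] at h2
      exact absurd h2 (not_lt.2 (norm_nonneg _))
    intro s hs
    by_contra hne
    rcases lt_or_gt_of_ne hne with h2 | h2
    · refine hpos (-(conj s)) (by simpa using h2) ?_
      rw [h.symm, hs, map_zero]
    · exact hpos s h2 hs

variable {f : ℂ → ℂ}

/-- heights larger than `D` are covered by the zeros with positive imaginary part -/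
theorem bad_cover (h : Sy f) (hz : ∃ z, f z = 0) {D h0 T : ℝ} (hD : ∀ b, f b = 0 → |b.re| ≤ D)
    (h0n : 0 ≤ h0) {t : ℝ} (ht : t ∈ Bad f h0 T) (htD : D < t) :
    ∃ b ∈ S f h0 (T + D), t ∈ Set.Icc (b.im - |b.re|) (b.im + |b.re|) := by
  obtain ⟨ht0, htT, hbad⟩ := ht
  by_contra hcon
  apply hbad
  refine h.strict hz h0n fun b hb hb0 => ?_
  by_contra hlt
  push Not at hlt
  apply hcon
  have hDb := hD b hb
  rw [abs_lt] at hlt
  refine ⟨b, ⟨hb, hb0.le, by linarith, by linarith⟩, ?_⟩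
  constructor <;> linarith

theorem bad_meas (h : Sy f) (hz : ∃ z, f z = 0) {D : ℝ} (hD : ∀ b, f b = 0 → |b.re| ≤ D)
    {c C : ℝ} (hc : 0 < c) (hC : 0 < C)
    (hcount : ∀ δ T : ℝ, 0 ≤ δ → 2 ≤ T → (S f δ T).Finite ∧
      ((S f δ T).ncard : ℝ) ≤ C * T ^ (1 - c * δ) * Real.log T) :
    ∃ C' : ℝ, 0 < C' ∧ ∀ r T : ℝ, 0 ≤ r → 2 ≤ T →
      volume (Bad f (r / Real.log T) T ∩ Ioi (max D 1)) ≤
        ENNReal.ofReal (C' * (1 + r) * Real.exp (-(c * r)) * T) := by
  classical
  obtain ⟨D', hDD, hD1, hD'⟩ : ∃ D' : ℝ, D' = max D 1 ∧ 1 ≤ D' ∧ ∀ b, f b = 0 → |b.re| ≤ D' :=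
    ⟨max D 1, rfl, le_max_right _ _, fun b hb => (hD b hb).trans (le_max_left _ _)⟩
  rw [← hDD]
  have hl2 : 0 < Real.log 2 := Real.log_pos (by norm_num)
  have hlD : 0 ≤ Real.log (1 + D') := Real.log_nonneg (by linarith)
  obtain ⟨E, hE⟩ : ∃ E : ℝ, E = 1 + Real.log (1 + D') / Real.log 2 := ⟨_, rfl⟩
  have hE1 : 1 ≤ E := by
    rw [hE]
    have : 0 ≤ Real.log (1 + D') / Real.log 2 := by positivity
    linarith
  refine ⟨2 * C * (1 + D') * E * (1 + 1 / c), by positivity, fun r T hr hT => ?_⟩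
  have hT0 : 0 < T := by linarith
  set L := Real.log T with hL
  have hL2 : Real.log 2 ≤ L := Real.log_le_log (by norm_num) hT
  have hL0 : 0 < L := lt_of_lt_of_le hl2 hL2
  set h0 := r / L with hh0
  have h0n : 0 ≤ h0 := by positivity
  set T' := (1 + D') * T with hT'
  have hT'2 : 2 ≤ T' := by rw [hT']; nlinarith
  have hT'0 : 0 < T' := by linarith
  have hTD : T + D' ≤ T' := by rw [hT']; nlinarith
  have hTT' : T ≤ T' := by linarith
  have hlogT' : Real.log T' = Real.log (1 + D') + L := by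
    rw [hT', Real.log_mul (by linarith) hT0.ne']
  have hlogT'1 : Real.log T' ≤ E * L := by
    rw [hlogT', hE]
    have h1 : Real.log (1 + D') ≤ Real.log (1 + D') / Real.log 2 * L := by
      rw [div_mul_eq_mul_div, le_div_iff₀ hl2]
      exact mul_le_mul_of_nonneg_left hL2 hlD
    linarith
  have hlogT'2 : L ≤ Real.log T' := by rw [hlogT']; linarith
  have hfin := (hcount h0 T' h0n hT'2).1
  set Z := hfin.toFinset with hZ
  have hmem : ∀ b, b ∈ Z ↔ b ∈ S f h0 T' := fun b => by rw [hZ, Set.Finite.mem_toFinset]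
  -- counting
  have hcnt : ∀ u : ℝ, h0 ≤ u → ((Z.filter (fun b => u ≤ |b.re|)).card : ℝ) ≤
      (C * (1 + D') * E * T * L) * Real.exp (-((c * L) * u)) := by
    intro u hu
    have hu0 : 0 ≤ u := h0n.trans hu
    obtain ⟨hf1, hf2⟩ := hcount u T' hu0 hT'2
    have h1 : (Z.filter (fun b => u ≤ |b.re|)).card ≤ (S f u T').ncard := by
      rw [← Set.ncard_coe_finset]
      refine Set.ncard_le_ncard ?_ hf1
      intro b hb
      rw [Finset.mem_coe, Finset.mem_filter, hmem] at hb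
      exact ⟨hb.1.1, hb.2, hb.1.2.2.1, hb.1.2.2.2⟩
    have h2 : (((Z.filter (fun b => u ≤ |b.re|)).card : ℕ) : ℝ) ≤ ((S f u T').ncard : ℝ) := by exact_mod_cast h1
    refine h2.trans (hf2.trans ?_)
    have h3 : T' ^ (1 - c * u) = T' * Real.exp (-(c * u * Real.log T')) := by
      rw [Real.rpow_def_of_pos hT'0]
      have : Real.log T' * (1 - c * u) = Real.log T' + -(c * u * Real.log T') := by ring
      rw [this, Real.exp_add, Real.exp_log hT'0]
    have h4 : Real.exp (-(c * u * Real.log T')) ≤ Real.exp (-((c * L) * u)) := by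
      apply Real.exp_le_exp.mpr
      have := mul_le_mul_of_nonneg_left hlogT'2 (mul_nonneg hc.le hu0)
      linarith
    have hlogn : 0 ≤ Real.log T' := hL0.le.trans hlogT'2
    calc C * T' ^ (1 - c * u) * Real.log T'
        = C * (T' * Real.exp (-(c * u * Real.log T'))) * Real.log T' := by rw [h3]
      _ ≤ C * (T' * Real.exp (-((c * L) * u))) * (E * L) := by
          gcongr
      _ = (C * (1 + D') * E * T * L) * Real.exp (-((c * L) * u)) := by rw [hT']; ring
  have hsum := Pool.Agent.Y22.RX.sum_le Z (fun b => |b.re|) (h0 := h0) (A := C * (1 + D') * E * T * L) (a := c * L)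
    (by positivity) h0n (by positivity) (fun b hb => ((hmem b).mp hb).2.1) hcnt
  -- cover
  have hsub : Bad f h0 T ∩ Ioi D' ⊆ ⋃ b ∈ Z, Set.Icc (b.im - |b.re|) (b.im + |b.re|) := by
    rintro t ⟨ht, htD⟩
    obtain ⟨b, hb, htb⟩ := bad_cover h hz hD' h0n ht htD
    refine Set.mem_biUnion (x := b) ?_ htb
    rw [Finset.mem_coe, hmem]
    exact ⟨hb.1, hb.2.1, hb.2.2.1, hb.2.2.2.trans hTD⟩
  refine (measure_mono hsub).trans ((measure_biUnion_finset_le Z _).trans ?_)
  have h5 : ∑ b ∈ Z, volume (Set.Icc (b.im - |b.re|) (b.im + |b.re|)) = ENNReal.ofReal (2 * ∑ b ∈ Z, |b.re|) := by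
    rw [Finset.mul_sum, ENNReal.ofReal_sum_of_nonneg (fun b _ => by positivity)]
    refine Finset.sum_congr rfl fun b _ => ?_
    rw [Real.volume_Icc]
    congr 1
    ring
  rw [h5]
  refine ENNReal.ofReal_le_ofReal ?_
  have h6 : (c * L) * h0 = c * r := by
    rw [hh0]; field_simp
  rw [h6] at hsum
  have h7 : (C * (1 + D') * E * T * L) * Real.exp (-(c * r)) * (h0 + 1 / (c * L)) =
      C * (1 + D') * E * T * Real.exp (-(c * r)) * (r + 1 / c) := by
    rw [hh0]; field_simp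
  rw [h7] at hsum
  have h8 : r + 1 / c ≤ (1 + 1 / c) * (1 + r) := by
    have : 0 ≤ 1 / c := by positivity
    nlinarith
  have h9 : C * (1 + D') * E * T * Real.exp (-(c * r)) * (r + 1 / c) ≤
      C * (1 + D') * E * T * Real.exp (-(c * r)) * ((1 + 1 / c) * (1 + r)) :=
    mul_le_mul_of_nonneg_left h8 (by positivity)
  calc 2 * ∑ b ∈ Z, |b.re| ≤ 2 * (C * (1 + D') * E * T * Real.exp (-(c * r)) * ((1 + 1 / c) * (1 + r))) := by linarith
    _ = 2 * C * (1 + D') * E * (1 + 1 / c) * (1 + r) * Real.exp (-(c * r)) * T := by ring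

/-- the final form, zeros in `|Re z| ≤ 1/2` -/
theorem bad_all (h : Sy f) (hz : ∃ z, f z = 0) (hD : ∀ b, f b = 0 → |b.re| ≤ 1 / 2)
    (hcount : ∀ c : ℝ, c < 1 → ∃ C : ℝ, 0 < C ∧ ∀ δ T : ℝ, 0 ≤ δ → 2 ≤ T → (S f δ T).Finite ∧
      ((S f δ T).ncard : ℝ) ≤ C * T ^ (1 - c * δ) * Real.log T) {c : ℝ} (hc : c < 1) :
    ∃ C' : ℝ, 0 < C' ∧ ∀ r T : ℝ, 0 ≤ r → 2 ≤ T →
      volume (Bad f (r / Real.log T) T) ≤ ENNReal.ofReal (C' * Real.exp (-(c * r)) * T) := by
  obtain ⟨c1, hc1, hcc1, hc11⟩ : ∃ c1 : ℝ, 0 < c1 ∧ c < c1 ∧ c1 < 1 := by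
    refine ⟨max ((c + 1) / 2) (1 / 2), ?_, ?_, ?_⟩
    · exact lt_of_lt_of_le (by norm_num) (le_max_right _ _)
    · exact lt_of_lt_of_le (by linarith) (le_max_left _ _)
    · exact max_lt (by linarith) (by norm_num)
  obtain ⟨C, hC, h1⟩ := hcount c1 hc11
  obtain ⟨C1, hC1, h2⟩ := bad_meas h hz hD hc1 hC h1
  have hd : 0 < c1 - c := by linarith
  refine ⟨C1 * max 1 (1 / (c1 - c)) + 1, by positivity, fun r T hr hT => ?_⟩
  have hT0 : 0 < T := by linarith
  have hl : 0 < Real.log T := Real.log_pos (by linarith)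
  rcases le_or_gt (r / Real.log T) (1 / 2) with hr2 | hr2
  · -- all but `(0, 1]`
    have h3 : 1 + r ≤ max 1 (1 / (c1 - c)) * Real.exp ((c1 - c) * r) := by
      have h4 : 1 + (c1 - c) * r ≤ Real.exp ((c1 - c) * r) := by
        have := Real.add_one_le_exp ((c1 - c) * r)
        linarith
      have h5 : 1 + r ≤ max 1 (1 / (c1 - c)) * (1 + (c1 - c) * r) := by
        have h6 : 1 ≤ max 1 (1 / (c1 - c)) := le_max_left _ _
        have h7 : 1 ≤ max 1 (1 / (c1 - c)) * (c1 - c) := by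
          have := mul_le_mul_of_nonneg_right (le_max_right 1 (1 / (c1 - c))) hd.le
          rwa [one_div_mul_cancel hd.ne'] at this
        nlinarith [mul_le_mul_of_nonneg_right h7 hr]
      exact h5.trans (mul_le_mul_of_nonneg_left h4 (by positivity))
    have h8 : Real.exp ((c1 - c) * r) * Real.exp (-(c1 * r)) = Real.exp (-(c * r)) := by
      rw [← Real.exp_add]
      congr 1
      ring
    have h9 : C1 * (1 + r) * Real.exp (-(c1 * r)) * T ≤ C1 * max 1 (1 / (c1 - c)) * Real.exp (-(c * r)) * T := by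
      calc C1 * (1 + r) * Real.exp (-(c1 * r)) * T
          ≤ C1 * (max 1 (1 / (c1 - c)) * Real.exp ((c1 - c) * r)) * Real.exp (-(c1 * r)) * T := by gcongr
        _ = C1 * max 1 (1 / (c1 - c)) * (Real.exp ((c1 - c) * r) * Real.exp (-(c1 * r))) * T := by ring
        _ = C1 * max 1 (1 / (c1 - c)) * Real.exp (-(c * r)) * T := by rw [h8]
    have h10 : (1 : ℝ) ≤ 1 * Real.exp (-(c * r)) * T := by
      have h11 : r ≤ 1 / 2 * Real.log T := by rwa [div_le_iff₀ hl] at hr2
      have h12 : c * r ≤ Real.log T := by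
        have : c * r ≤ 1 * r := mul_le_mul_of_nonneg_right hc.le hr
        linarith
      have h13 : Real.exp (-(c * r)) * T = Real.exp (Real.log T - c * r) := by
        rw [Real.exp_sub, Real.exp_log hT0, Real.exp_neg]
        field_simp
      rw [one_mul, h13]
      exact Real.one_le_exp (by linarith)
    have hmax : max (1 / 2 : ℝ) 1 = 1 := by norm_num
    have hsplit : Bad f (r / Real.log T) T ⊆ Icc 0 1 ∪ (Bad f (r / Real.log T) T ∩ Ioi (max (1 / 2) 1)) := by
      intro t ht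
      rw [hmax]
      rcases le_or_gt t 1 with h | h
      · exact Or.inl ⟨ht.1, h⟩
      · exact Or.inr ⟨ht, h⟩
    refine (measure_mono hsplit).trans ((measure_union_le _ _).trans ?_)
    have h14 : volume (Icc (0 : ℝ) 1) = ENNReal.ofReal 1 := by
      rw [Real.volume_Icc, sub_zero]
    rw [h14]
    refine (add_le_add le_rfl (h2 r T hr hT)).trans ?_
    rw [← ENNReal.ofReal_add zero_le_one (by positivity)]
    refine ENNReal.ofReal_le_ofReal ?_
    linarith
  · -- no exception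
    have h3 : Bad f (r / Real.log T) T = ∅ := by
      rw [Set.eq_empty_iff_forall_notMem]
      rintro t ⟨-, -, ht⟩
      apply ht
      refine h.strict hz (by positivity) fun b hb hb0 => ?_
      have := hD b hb
      linarith
    rw [h3, measure_empty]
    exact bot_le

/-- zeros counted without and with multiplicity -/
theorem ncard_le {g : ℂ → ℂ} (hg : Differentiable ℂ g) (hne : ∃ z, g z ≠ 0) {A : Set ℂ} (hA : A.Finite)
    (hz : ∀ z ∈ A, g z = 0) : A.ncard ≤ ∑ᶠ z ∈ A, analyticOrderNatAt g z := by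
  classical
  have htop : ∀ z, analyticOrderAt g z ≠ ⊤ := by
    intro z h
    rw [analyticOrderAt_eq_top] at h
    have h3 : AnalyticOnNhd ℂ g Set.univ := fun z _ => hg.analyticAt z
    have h4 := h3.eqOn_zero_of_preconnected_of_eventuallyEq_zero isPreconnected_univ (Set.mem_univ z) h
    obtain ⟨w, hw⟩ := hne
    exact hw (h4 (Set.mem_univ w))
  rw [finsum_mem_eq_finite_toFinset_sum _ hA, Set.ncard_eq_toFinset_card _ hA, Finset.card_eq_sum_ones]
  refine Finset.sum_le_sum fun z hz' => ?_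
  rw [Set.Finite.mem_toFinset] at hz'
  by_contra hlt
  push Not at hlt
  have h6 : analyticOrderNatAt g z = 0 := by omega
  have h7 : analyticOrderAt g z = 0 := by
    rw [← Nat.cast_analyticOrderNatAt (htop z), h6]
    rfl
  exact ((hg.analyticAt z).analyticOrderAt_eq_zero.mp h7) (hz z hz')

end

end Pool.Agent.R838.TW
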