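import Pool.Agent.Y771.NF.Lam
import Pool.Agent.W355.UN.Pack
import Pool.Agent.TH839.UH.Fin2

set_option autoImplicit false

/-!
# The conductor bounds of the starting library for completed L-functions of forms and their products
-/

namespace Pool.Agent.R838.TW

open Filter Topology Complex
open Pool.Agent.Y671.GL
open Pool.Agent.Y771.NF (muk gaf_muk heat_shift iter_shift)
open Pool.Agent.W355.UN (UL)
open Pool.Agent.W169.HF (heat)
open scoped ComplexConjugate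

theorem ul_of {k N : ℕ} [NeZero N] {ps lam : ℕ → ℂ} {u : ℂ} {X Z : ℂ → ℂ} (hk : 1 ≤ k)
    (hF : Frm k N ps lam) (hL : IsL lam Z) (hD : LData k (Real.sqrt N / (2 * Real.pi)) u X Z) :
    ∃ (B : ℝ → ℝ) (L : ℂ → ℂ), UL 2 B (N : ℝ) 0 (muk k) (fun s => X (s - 1 / 2)) L := by
  have hN : (1 : ℝ) ≤ N := by exact_mod_cast Nat.one_le_iff_ne_zero.2 (NeZero.ne N)
  have hk1 : (1 : ℝ) ≤ k := by exact_mod_cast hk
  have hC := cg_of hF hL hD
  have hrgt := rgt_of hF hL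
  obtain ⟨r0, hr0, hr⟩ := gaf_muk (N := N) rfl k
  choose! cc KK hcc hKK hb using hrgt
  refine ⟨fun ρ => |KK ρ|, fun s => u * r0 * Z s, by norm_num, hN, fun ρ => abs_nonneg _, le_rfl, ?_, ?_, ?_, ?_,
    ?_, ?_⟩
  · intro j
    fin_cases j
    · show (-(((k : ℂ) - 1) / 2)).re ≤ 1 / 2
      rw [show ((k : ℂ) - 1) / 2 = ((((k : ℝ) - 1) / 2 : ℝ) : ℂ) by push_cast; ring, Complex.neg_re, Complex.ofReal_re]
      linarith
    · show (-(((k : ℂ) + 1) / 2)).re ≤ 1 / 2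
      rw [show ((k : ℂ) + 1) / 2 = ((((k : ℝ) + 1) / 2 : ℝ) : ℂ) by push_cast; ring, Complex.neg_re, Complex.ofReal_re]
      linarith
  · obtain ⟨K, hK, hKb⟩ := hC.slow
    refine slow_of (K := K * 3) ((hC.cf.diff).comp (by fun_prop : Differentiable ℂ fun s : ℂ => s - 1 / 2))
      (by positivity) fun z => (hKb _).trans (Real.exp_le_exp.2 ?_)
    have h1 : ‖z - 1 / 2‖ ≤ ‖z‖ + 1 / 2 := by
      refine (norm_sub_le _ _).trans ?_
      have : ‖(1 / 2 : ℂ)‖ = 1 / 2 := by norm_num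
      rw [this]
    have h2 : 1 + ‖z - 1 / 2‖ ≤ 2 * (1 + ‖z‖) := by
      have := norm_nonneg z
      linarith
    have h3 : (1 + ‖z - 1 / 2‖) ^ (3 / 2 : ℝ) ≤ (2 * (1 + ‖z‖)) ^ (3 / 2 : ℝ) :=
      Real.rpow_le_rpow (by positivity) h2 (by norm_num)
    rw [Real.mul_rpow (by norm_num) (by positivity)] at h3
    have h4 : (2 : ℝ) ^ (3 / 2 : ℝ) ≤ 3 := by
      have h5 : ((2 : ℝ) ^ (3 / 2 : ℝ)) ^ 2 = 8 := by
        rw [← Real.rpow_natCast, ← Real.rpow_mul (by norm_num)]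
        norm_num
      have h6 : (0 : ℝ) ≤ (2 : ℝ) ^ (3 / 2 : ℝ) := by positivity
      nlinarith
    have h7 : (0 : ℝ) ≤ (1 + ‖z‖) ^ (3 / 2 : ℝ) := by positivity
    calc K * (1 + ‖z - 1 / 2‖) ^ (3 / 2 : ℝ) ≤ K * (3 * (1 + ‖z‖) ^ (3 / 2 : ℝ)) := by
          apply mul_le_mul_of_nonneg_left _ hK.le
          nlinarith
      _ = _ := by ring
  · refine ⟨1, by simp, fun s => ?_⟩
    show X (s - 1 / 2) = 1 * conj (X (1 - conj s - 1 / 2))
    have h1 : (1 - conj s - 1 / 2 : ℂ) = -(conj (s - 1 / 2)) := by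
      rw [map_sub, map_div₀, map_one, map_ofNat]
      ring
    rw [h1, hC.cf.symm, Complex.conj_conj, one_mul]
  · intro s hs
    show X (s - 1 / 2) = H353.E.gaf (N : ℝ) (muk k) s * (u * r0 * Z s)
    have h1 : (s - 1 / 2 : ℂ).re = s.re - 1 / 2 := by simp
    rw [hD.eq (s - 1 / 2) (Or.inr (by rw [h1]; linarith)), hr s, add_sub_cancel]
    ring
  · intro s hs
    have h1 := (hb ((s.re - 1)) (by linarith) s (by linarith)).1
    have h2 := hcc (s.re - 1) (by linarith)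
    have h3 : Z s ≠ 0 := by
      intro h0
      rw [h0, norm_zero] at h1
      linarith
    exact mul_ne_zero (mul_ne_zero hD.u_ne hr0) h3
  · intro ρ hρ hρ1 s hs
    have h1 := (hb ρ hρ s (by linarith)).2.2
    have h2 : logDeriv (fun s => u * r0 * Z s) s = logDeriv Z s := logDeriv_const_mul s _ (mul_ne_zero hD.u_ne hr0)
    rw [h2]
    have h3 := le_abs_self (KK ρ)
    have h4 := abs_nonneg (KK ρ)
    push_cast
    linarith

/-! ### the analytic conductor -/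

theorem cond_ge {m : ℕ} {N : ℝ} (hN : 1 ≤ N) (hm : 1 ≤ m) (μ : Fin m → ℂ) : ∃ T0 : ℝ, 2 ≤ T0 ∧ ∀ y : ℝ, T0 ≤ y →
    Real.log y / 2 ≤ Real.log (Pool.Agent.W355.UN.cond N μ y) := by
  obtain ⟨m, rfl⟩ : ∃ m', m = m' + 1 := ⟨m - 1, by omega⟩
  refine ⟨max 4 (2 * ‖μ 0‖), le_trans (by norm_num) (le_max_left _ _), fun y hy => ?_⟩
  have h4 : 4 ≤ y := (le_max_left _ _).trans hy
  have h2 : 2 * ‖μ 0‖ ≤ y := (le_max_right _ _).trans hy
  have hy0 : 0 < y := by linarith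
  unfold Pool.Agent.W355.UN.cond
  rw [Fin.prod_univ_succ]
  have h1 : (1 : ℝ) ≤ ∏ i : Fin m, (1 + ‖(y : ℂ) * I - μ i.succ‖) := by
    refine Finset.prod_induction _ (fun x => (1 : ℝ) ≤ x) (fun a b ha hb => ?_) le_rfl fun j _ => ?_
    · nlinarith
    · linarith [norm_nonneg ((y : ℂ) * I - μ j.succ)]
  have h5 : y / 2 ≤ 1 + ‖(y : ℂ) * I - μ 0‖ := by
    have h6 := norm_sub_norm_le ((y : ℂ) * I) (μ 0)
    have h7 : ‖(y : ℂ) * I‖ = y := by
      rw [norm_mul, Complex.norm_I, mul_one, Complex.norm_real, Real.norm_eq_abs, abs_of_pos hy0]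
    linarith
  have h8 : Real.sqrt y ≤ y / 2 := by
    rw [Real.sqrt_le_left (by linarith)]
    nlinarith
  have h9 : Real.sqrt y ≤ N * ((1 + ‖(y : ℂ) * I - μ 0‖) * ∏ i : Fin m, (1 + ‖(y : ℂ) * I - μ i.succ‖)) := by
    have h10 : 0 ≤ 1 + ‖(y : ℂ) * I - μ 0‖ := by positivity
    have h11 : (1 + ‖(y : ℂ) * I - μ 0‖) * 1 ≤
        (1 + ‖(y : ℂ) * I - μ 0‖) * ∏ i : Fin m, (1 + ‖(y : ℂ) * I - μ i.succ‖) :=
      mul_le_mul_of_nonneg_left h1 h10
    have h12 : 0 ≤ (1 + ‖(y : ℂ) * I - μ 0‖) * ∏ i : Fin m, (1 + ‖(y : ℂ) * I - μ i.succ‖) := by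
      linarith
    nlinarith
  have h10 : Real.log (Real.sqrt y) = Real.log y / 2 := by
    rw [Real.log_sqrt hy0.le]
  rw [← h10]
  exact Real.log_le_log (Real.sqrt_pos.2 hy0) h9

theorem cond_le {m : ℕ} {N : ℝ} (hN : 1 ≤ N) (μ : Fin m → ℂ) : ∃ D : ℝ, 0 ≤ D ∧ ∀ y : ℝ,
    Real.log (Pool.Agent.W355.UN.cond N μ y) ≤ D + m * Real.log (1 + |y|) := by
  refine ⟨Real.log N + ∑ j, Real.log (1 + ‖μ j‖), ?_, fun y => ?_⟩
  · have h1 : 0 ≤ ∑ j, Real.log (1 + ‖μ j‖) :=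
      Finset.sum_nonneg fun j _ => Real.log_nonneg (by linarith [norm_nonneg (μ j)])
    have := Real.log_nonneg hN
    linarith
  · unfold Pool.Agent.W355.UN.cond
    have hpos : ∀ j : Fin m, 0 < 1 + ‖(y : ℂ) * I - μ j‖ := fun j => by positivity
    rw [Real.log_mul (by linarith) (Finset.prod_pos fun j _ => hpos j).ne',
      Real.log_prod (fun j _ => (hpos j).ne')]
    have h1 : ∑ j, Real.log (1 + ‖(y : ℂ) * I - μ j‖) ≤
        ∑ j : Fin m, (Real.log (1 + ‖μ j‖) + Real.log (1 + |y|)) := by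
      refine Finset.sum_le_sum fun j _ => ?_
      rw [← Real.log_mul (by positivity) (by positivity)]
      refine Real.log_le_log (hpos j) ?_
      have h2 := norm_sub_le ((y : ℂ) * I) (μ j)
      have h3 : ‖(y : ℂ) * I‖ = |y| := by
        rw [norm_mul, Complex.norm_I, mul_one, Complex.norm_real, Real.norm_eq_abs]
      rw [h3] at h2
      nlinarith [abs_nonneg y, norm_nonneg (μ j), mul_nonneg (abs_nonneg y) (norm_nonneg (μ j))]
    rw [Finset.sum_add_distrib, Finset.sum_const, Finset.card_univ, Fintype.card_fin, nsmul_eq_mul] at h1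
    linarith

section flow

variable {m : ℕ} {B : ℝ → ℝ} {N : ℝ} {μ : Fin m → ℂ} {X L : ℂ → ℂ}

/-- large times -/
theorem huge_ul (h : UL m B N 0 μ (fun s => X (s - 1 / 2)) L) : HugeX X := by
  obtain ⟨C, hCp, hmain⟩ := Pool.Agent.TH839.UH.main_all (h.hB 1)
  obtain ⟨T0, hT0, hge⟩ := cond_ge h.hN h.hm μ
  refine ⟨max (2 * C) 1, T0, le_max_right _ _, hT0, ?_⟩
  intro t τ s ht hτ hτ8 hX hst hbad
  obtain ⟨hb1, hb2⟩ := hbad
  have h1 := hmain m N 0 μ _ _ h zero_le_one τ 0 (s + 1 / 2) hτ.le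
  have him : (s + 1 / 2 : ℂ).im = s.im := by simp
  have hre : (s + 1 / 2 : ℂ).re = s.re + 1 / 2 := by simp
  have hheat : heat τ (fun s => X (s - 1 / 2)) = fun s => heat τ X (s - 1 / 2) := by
    funext z
    rw [heat_shift]
  rw [him, hre, hheat, iter_shift, iter_shift, add_sub_cancel_right] at h1
  have h2 := hge s.im (by rw [hst]; exact ht)
  obtain ⟨ℓ, hℓ⟩ : ∃ ℓ : ℝ, ℓ = (m : ℝ) + Real.log (Pool.Agent.W355.UN.cond N μ s.im) := ⟨_, rfl⟩
  rw [← hℓ] at h1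
  have hm0 : (0 : ℝ) ≤ m := Nat.cast_nonneg m
  have h3 : Real.log t / 2 ≤ ℓ := by
    rw [hℓ, ← hst]
    linarith
  have h4 : 0 < Real.log t := Real.log_pos (by linarith)
  have h5 : C ≤ τ * ℓ := by
    have h6 : τ * (Real.log t / 2) ≤ τ * ℓ := mul_le_mul_of_nonneg_left h3 hτ.le
    have h7 := le_max_left (2 * C) 1
    linarith
  obtain ⟨h7, h8⟩ := h1 (by
    rw [Nat.cast_zero, zero_add]
    have h6 : C * ℓ ≤ τ * ℓ * ℓ := mul_le_mul_of_nonneg_right h5 (by linarith)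
    calc _ ≤ τ * ℓ * ℓ := h6
      _ = _ := by ring) (by rw [iteratedDeriv_zero]; exact hb1)
  rw [zero_add, iteratedDeriv_one] at h8
  rcases hb2 with h9 | h9
  · exact h9 (by linarith)
  · exact h8 h9

/-- high derivatives -/
theorem low_ul (h : UL m B N 0 μ (fun s => X (s - 1 / 2)) L) (g0 : heat 0 X = X) : LowX X := by
  obtain ⟨C, hCp, hmain⟩ := Pool.Agent.TH839.UH.main_all (h.hB 1)
  obtain ⟨D0, hD0, hle⟩ := cond_le h.hN μ
  have hm : (1 : ℝ) ≤ m := by exact_mod_cast h.hm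
  have hm0 : (0 : ℝ) < m := by linarith
  obtain ⟨D, hDd⟩ : ∃ D : ℝ, D = m + D0 + m * Real.log 2 := ⟨_, rfl⟩
  refine ⟨2 * C * m, by positivity, ⌈2 * C * D⌉₊, ?_⟩
  intro n hn s hs hbad
  have hn' : 2 * C * D ≤ n := (Nat.le_ceil _).trans (by exact_mod_cast hn)
  obtain ⟨hb1, hb2⟩ := hbad
  have h1 := hmain m N 0 μ _ _ h zero_le_one 0 n (s + 1 / 2) le_rfl
  have him : (s + 1 / 2 : ℂ).im = s.im := by simp
  have hre : (s + 1 / 2 : ℂ).re = s.re + 1 / 2 := by simp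
  have hheat : heat 0 (fun s => X (s - 1 / 2)) = fun s => X (s - 1 / 2) := by
    funext z
    rw [heat_shift, g0]
  rw [him, hre, hheat] at h1
  have h2 := hle s.im
  have h3 : Real.log (1 + |s.im|) ≤ Real.log 2 + n / (2 * C * m) := by
    have h4 : 1 + |s.im| ≤ 2 * Real.exp (n / (2 * C * m)) := by
      have : 1 ≤ Real.exp (n / (2 * C * m)) := Real.one_le_exp (by positivity)
      linarith
    have h5 := Real.log_le_log (by positivity) h4
    rwa [Real.log_mul (by norm_num) (Real.exp_pos _).ne', Real.log_exp] at h5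
  have h6 : C * ((m : ℝ) + Real.log (Pool.Agent.W355.UN.cond N μ s.im)) ≤ n := by
    have h7 : (m : ℝ) + Real.log (Pool.Agent.W355.UN.cond N μ s.im) ≤ D + m * (n / (2 * C * m)) := by
      rw [hDd]
      have := mul_le_mul_of_nonneg_left h3 hm0.le
      linarith
    calc _ ≤ C * (D + m * (n / (2 * C * m))) := mul_le_mul_of_nonneg_left h7 hCp.le
      _ = C * D + n / 2 := by field_simp
      _ ≤ n := by linarith
  obtain ⟨h7, h8⟩ := h1 (by rw [zero_mul, add_zero]; exact h6) (by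
    rw [iter_shift]
    rw [add_sub_cancel_right]
    exact hb1)
  rw [iter_shift, add_sub_cancel_right] at h8
  rcases hb2 with h9 | h9
  · exact h9 (by linarith)
  · exact h8 h9

end flow

end Pool.Agent.R838.TW
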