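import Pool.Agent.R838.TW.Fe
import Pool.Agent.R838.TW.Ul
import Pool.Agent.R838.TW.Gro
import Pool.Agent.Y693.GL.Prd
import Pool.Agent.Y24.GL.H5
import Pool.Agent.Y24.GL.H6
import Pool.Agent.Y771.NF.Dn

set_option autoImplicit false

/-!
# Completed L-functions of forms of degree two and their products: the common properties
-/

namespace Pool.Agent.R838.TW

open Filter Topology Complex
open Pool.Agent.Y671.GL
open Pool.Agent.Y693.GL (GY gy_one gy_mul)
open Pool.Agent.Y24.GL (LFn)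
open Pool.Agent.Y771.NF (muk)
open Pool.Agent.W355.UN (UL)
open Pool.Agent.W169.HF (heat)
open scoped ComplexConjugate

/-- Properties of completed L-functions and of their products (`2 κ` = degree). -/
structure PL (κ : ℝ) (X : ℂ → ℂ) : Prop where
  gy : ∃ H Z : ℂ → ℂ, GY κ H X Z
  strip : ∀ s : ℂ, X s = 0 → |s.re| ≤ 1 / 2
  ul : ∃ (m : ℕ) (B : ℝ → ℝ) (N : ℝ) (μ : Fin m → ℂ) (L : ℂ → ℂ), UL m B N 0 μ (fun s => X (s - 1 / 2)) L
  dens : ∀ c : ℝ, c < 1 → ∃ C : ℝ, 0 < C ∧ ∀ d T : ℝ, 0 ≤ d → 2 ≤ T → ∀ S : Finset ℂ,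
    (∀ s ∈ S, X s = 0 ∧ d ≤ |s.re| ∧ 0 < s.im ∧ s.im ≤ T) →
      ∑ s ∈ S, (analyticOrderNatAt X s : ℝ) ≤ C * T ^ (1 - c * d) * Real.log T

/-- The density theorem for one form. -/
theorem dens_of {k N : ℕ} {ps lam : ℕ → ℂ} {c0 : ℝ} {u : ℂ} {X Z : ℂ → ℂ} (hk : 1 ≤ k)
    (hF : Frm k N ps lam) (hL : IsL lam Z) (hD : LData k c0 u X Z) (hlfn : LFn Z) {c : ℝ} (hc : c < 1) :
    ∃ C : ℝ, 0 < C ∧ ∀ d T : ℝ, 0 ≤ d → 2 ≤ T → ∀ S : Finset ℂ,
    (∀ s ∈ S, X s = 0 ∧ d ≤ |s.re| ∧ 0 < s.im ∧ s.im ≤ T) →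
      ∑ s ∈ S, (analyticOrderNatAt X s : ℝ) ≤ C * T ^ (1 - c * d) * Real.log T := by
  classical
  have hstrip := strip_of hF hL hD
  obtain ⟨C, hC, h⟩ := Pool.Agent.Y24.GL.density hlfn
    (fun κ h1 h2 => Pool.Agent.Y24.GL.mol hF hL (by linarith) h2.le) hc
  have hX := hD.diff
  refine ⟨2 * C, by positivity, fun d T hd hT S hS => ?_⟩
  have hlog : 0 ≤ Real.log T := Real.log_nonneg (by linarith)
  have hT0 : 0 ≤ T := by linarith
  have hpow : 0 ≤ T ^ (1 - c * d) := Real.rpow_nonneg hT0 _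
  rcases le_or_gt d (1 / 2) with hd2 | hd2
  · have hB := h (1 / 2 + d) T (by linarith) (by linarith) hT
    rw [add_sub_cancel_left] at hB
    rw [← Finset.sum_filter_add_sum_filter_not S (fun w => d ≤ w.re)]
    have hZ0 : ∀ w : ℂ, 0 < w.im → X w = 0 → Z (1 / 2 + w) = 0 := by
      intro w hw h0
      rw [hD.eq w (Or.inl hw)] at h0
      refine (mul_eq_zero.1 h0).resolve_left ?_
      refine mul_ne_zero hD.u_ne (mul_ne_zero ?_ ?_)
      · rw [Ne, Complex.cpow_eq_zero_iff]
        intro h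
        have := hD.c_pos.ne'
        exact this (by exact_mod_cast h.1)
      · apply Complex.Gamma_ne_zero
        intro m hm
        have := congrArg Complex.im hm
        simp at this
        linarith
    have hp : ∑ w ∈ S.filter (fun w => d ≤ w.re), (analyticOrderNatAt X w : ℝ) ≤
        C * T ^ (1 - c * d) * Real.log T := by
      refine Pool.Agent.Y771.NF.half_sum (φ := fun w => 1 / 2 + w) (fun a _ b _ hab => add_left_cancel hab) ?_ ?_ hB
      · intro w hw
        obtain ⟨h1, h2⟩ := Finset.mem_filter.1 hw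
        obtain ⟨h3, h4, h5, h6⟩ := hS w h1
        refine ⟨hZ0 w h5 h3, ?_, ?_, ?_⟩
        · simp
          linarith
        · simp
          exact h5
        · simp
          exact h6
      · intro w hw
        obtain ⟨h1, h2⟩ := Finset.mem_filter.1 hw
        obtain ⟨h3, h4, h5, h6⟩ := hS w h1
        exact Pool.Agent.Y771.NF.ord_L hk hD hL.diff h5
    have hm : ∑ w ∈ S.filter (fun w => ¬ d ≤ w.re), (analyticOrderNatAt X w : ℝ) ≤
        C * T ^ (1 - c * d) * Real.log T := by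
      refine Pool.Agent.Y771.NF.half_sum (φ := fun w => 1 / 2 + -(conj w)) (fun a _ b _ hab => ?_) ?_ ?_ hB
      · have h1 : -(conj a) = -(conj b) := add_left_cancel hab
        exact (starRingEnd ℂ).injective (neg_injective h1)
      · intro w hw
        obtain ⟨h1, h2⟩ := Finset.mem_filter.1 hw
        obtain ⟨h3, h4, h5, h6⟩ := hS w h1
        have h7 : X (-(conj w)) = 0 := by
          rw [hD.symm, h3, map_zero]
        have him : (-(conj w)).im = w.im := by simp
        have hre : (-(conj w)).re = -w.re := by simp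
        refine ⟨hZ0 _ (by rw [him]; exact h5) h7, ?_, ?_, ?_⟩
        · have h8 : d ≤ -w.re := by
            rcases le_abs.1 h4 with h9 | h9
            · exact absurd h9 h2
            · exact h9
          simp
          linarith
        · simp
          exact h5
        · simp
          exact h6
      · intro w hw
        obtain ⟨h1, h2⟩ := Finset.mem_filter.1 hw
        obtain ⟨h3, h4, h5, h6⟩ := hS w h1
        have him : (-(conj w)).im = w.im := by simp
        rw [← Pool.Agent.Y771.NF.ordNat_symm hX hD.symm w]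
        exact Pool.Agent.Y771.NF.ord_L hk hD hL.diff (by rw [him]; exact h5)
    calc _ ≤ C * T ^ (1 - c * d) * Real.log T + C * T ^ (1 - c * d) * Real.log T := add_le_add hp hm
      _ = _ := by ring
  · have hemp : S = ∅ := by
      rw [Finset.eq_empty_iff_forall_notMem]
      intro z hz
      obtain ⟨h1, h2, -, -⟩ := hS z hz
      have h3 := hstrip _ h1
      linarith
    rw [hemp, Finset.sum_empty]
    positivity

/-- **One form.** -/
theorem pl_of {k N : ℕ} [NeZero N] {ps lam : ℕ → ℂ} {u : ℂ} {X Z : ℂ → ℂ} (hk : 1 ≤ k)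
    (hF : Frm k N ps lam) (hL : IsL lam Z) (hD : LData k (Real.sqrt N / (2 * Real.pi)) u X Z) (hlfn : LFn Z) :
    PL 1 X where
  gy := ⟨_, _, gy_one (gg_of hF hL hD)⟩
  strip := strip_of hF hL hD
  ul := by
    obtain ⟨B, L, h⟩ := ul_of hk hF hL hD
    exact ⟨2, B, N, muk k, L, h⟩
  dens := fun c hc => dens_of hk hF hL hD hlfn hc

theorem PL.diff {κ : ℝ} {X : ℂ → ℂ} (h : PL κ X) : Differentiable ℂ X := by
  obtain ⟨H, Z, hG⟩ := h.gy
  exact hG.cg.cf.diff

theorem PL.ne {κ : ℝ} {X : ℂ → ℂ} (h : PL κ X) : X 1 ≠ 0 := by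
  intro h0
  have := h.strip 1 h0
  norm_num at this

theorem top_ne {g : ℂ → ℂ} (hg : Differentiable ℂ g) {z0 : ℂ} (hne : g z0 ≠ 0) (z : ℂ) : analyticOrderAt g z ≠ ⊤ := by
  intro h
  rw [analyticOrderAt_eq_top] at h
  have h3 : AnalyticOnNhd ℂ g Set.univ := fun z _ => hg.analyticAt z
  have h4 := h3.eqOn_zero_of_preconnected_of_eventuallyEq_zero isPreconnected_univ (Set.mem_univ z) h
  exact hne (h4 (Set.mem_univ z0))

/-- **Products.** -/
theorem PL.mul {κ κ' : ℝ} {X X' : ℂ → ℂ} (h1 : PL κ X) (h2 : PL κ' X') : PL (κ + κ') (fun s => X s * X' s) where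
  gy := by
    obtain ⟨H, Z, hG⟩ := h1.gy
    obtain ⟨H', Z', hG'⟩ := h2.gy
    exact ⟨_, _, gy_mul hG hG'⟩
  strip := fun s hs => by
    rcases mul_eq_zero.1 hs with h | h
    · exact h1.strip s h
    · exact h2.strip s h
  ul := by
    obtain ⟨m, B, N, μ, L, h⟩ := h1.ul
    obtain ⟨m', B', N', μ', L', h'⟩ := h2.ul
    have e1 := Pool.Agent.TH839.UH.UL.monoB h (B' := fun ρ => max (B ρ) (B' ρ)) (fun ρ => le_max_left _ _)
    have e2 := Pool.Agent.TH839.UH.UL.monoB h' (B' := fun ρ => max (B ρ) (B' ρ)) (fun ρ => le_max_right _ _)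
    exact ⟨_, _, _, _, _, e1.mul e2⟩
  dens := fun c hc => by
    classical
    obtain ⟨C1, hC1, H1⟩ := h1.dens c hc
    obtain ⟨C2, hC2, H2⟩ := h2.dens c hc
    refine ⟨C1 + C2, by positivity, fun d T hd hT S hS => ?_⟩
    have ht1 := top_ne h1.diff h1.ne
    have ht2 := top_ne h2.diff h2.ne
    have hord : ∀ s, (analyticOrderNatAt (fun s => X s * X' s) s : ℝ) =
        (analyticOrderNatAt X s : ℝ) + (analyticOrderNatAt X' s : ℝ) := by
      intro s
      have h3 : analyticOrderAt (fun s => X s * X' s) s = analyticOrderAt X s + analyticOrderAt X' s :=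
        analyticOrderAt_mul (h1.diff.analyticAt s) (h2.diff.analyticAt s)
      have h4 : analyticOrderNatAt (fun s => X s * X' s) s = analyticOrderNatAt X s + analyticOrderNatAt X' s := by
        unfold analyticOrderNatAt
        rw [h3, ENat.toNat_add (ht1 s) (ht2 s)]
      rw [h4]
      push_cast
      rfl
    have hz : ∀ (Y : ℂ → ℂ), Differentiable ℂ Y → ∀ s, Y s ≠ 0 → (analyticOrderNatAt Y s : ℝ) = 0 := by
      intro Y hY s hs
      have h3 : analyticOrderAt Y s = 0 := (hY.analyticAt s).analyticOrderAt_eq_zero.2 hs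
      unfold analyticOrderNatAt
      rw [h3]
      simp
    have hsum : ∀ (Y : ℂ → ℂ), Differentiable ℂ Y → ∑ s ∈ S, (analyticOrderNatAt Y s : ℝ) =
        ∑ s ∈ S.filter (fun s => Y s = 0), (analyticOrderNatAt Y s : ℝ) := by
      intro Y hY
      refine (Finset.sum_filter_of_ne fun s _ h0 => ?_).symm
      by_contra hne
      exact h0 (hz Y hY s hne)
    have e1 := H1 d T hd hT (S.filter (fun s => X s = 0)) (fun s hs => by
      obtain ⟨k1, k2⟩ := Finset.mem_filter.1 hs
      exact ⟨k2, (hS s k1).2⟩)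
    have e2 := H2 d T hd hT (S.filter (fun s => X' s = 0)) (fun s hs => by
      obtain ⟨k1, k2⟩ := Finset.mem_filter.1 hs
      exact ⟨k2, (hS s k1).2⟩)
    rw [Finset.sum_congr rfl (fun s _ => hord s), Finset.sum_add_distrib, hsum X h1.diff, hsum X' h2.diff]
    calc _ ≤ C1 * T ^ (1 - c * d) * Real.log T + C2 * T ^ (1 - c * d) * Real.log T := add_le_add e1 e2
      _ = _ := by ring

theorem pl_prod {ι : Type*} [DecidableEq ι] (s : Finset ι) (hs : s.Nonempty) (X : ι → ℂ → ℂ)
    (h : ∀ i ∈ s, PL 1 (X i)) : PL (s.card : ℝ) (fun w => ∏ i ∈ s, X i w) := by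
  induction hs using Finset.Nonempty.cons_induction with
  | singleton a =>
    simp only [Finset.card_singleton, Finset.prod_singleton, Nat.cast_one]
    exact h a (Finset.mem_singleton_self a)
  | cons a s ha hs ih =>
    have h1 := h a (Finset.mem_cons_self a s)
    have h2 := ih fun i hi => h i (Finset.mem_cons_of_mem hi)
    have h3 := h1.mul h2
    simp only [Finset.card_cons, Finset.prod_cons, Nat.cast_add, Nat.cast_one]
    rw [add_comm (s.card : ℝ) 1]
    exact h3

/-! ### consequences -/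

section cons

variable {κ : ℝ} {X : ℂ → ℂ}

theorem PL.sy (h : PL κ X) : Sy X := by
  obtain ⟨H, Z, hG⟩ := h.gy
  exact ⟨h.diff, hG.cg.cf.symm, hG.cg.slow, 1, h.ne⟩

theorem PL.app (h : PL κ X) : AppX X := by
  have h1 := h.sy
  exact Pool.Agent.Y275.GL.had1 X h1.diff h1.symm h1.ne h1.slow h.strip

theorem PL.huge (h : PL κ X) : HugeX X := by
  obtain ⟨m, B, N, μ, L, hU⟩ := h.ul
  exact huge_ul hU

theorem PL.low (h : PL κ X) : LowX X := by
  obtain ⟨m, B, N, μ, L, hU⟩ := h.ul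
  have h1 := h.sy
  obtain ⟨K, hK, hslow⟩ := h1.slow
  obtain ⟨g0, -⟩ := Pool.Agent.Y275.GL.hht X (slow_of h1.diff hK hslow) h1.symm h1.ne h.strip
  exact low_ul hU g0

theorem PL.zero (hκ : 1 / 2 ≤ κ) (h : PL κ X) : ∃ z, X z = 0 := by
  obtain ⟨H, Z, hG⟩ := h.gy
  obtain ⟨c2, T0, hc2, hT0, htot⟩ := Pool.Agent.Y423.GL.totd κ H X Z hκ hG.cg h.app 1 le_rfl
  have hl : 0 < Real.log T0 := Real.log_pos (by linarith)
  obtain ⟨S, hS, h7⟩ := htot 0 T0 le_rfl (by simp; exact hl.le)
  have hne : S.Nonempty := by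
    rw [Finset.nonempty_iff_ne_empty]
    intro h0
    rw [h0, Finset.sum_empty] at h7
    have : 0 < c2 * T0 * Real.log T0 := by positivity
    linarith
  obtain ⟨s, hs⟩ := hne
  have h1 := (hS s hs).1
  rw [iteratedDeriv_zero] at h1
  exact ⟨s, h1⟩

end cons

end Pool.Agent.R838.TW
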